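import Pool.Agent.U72.TD.Dens

set_option autoImplicit false

/-! # Rotating arcs of the dyadic blocks -/

namespace Pool.Agent.U72.TD

open Filter Topology
open Pool.Agent.H685R3 Pool.Agent.Helper227

/-! ### The base sequence -/

theorem nice_comp {θ η : ℝ → ℝ} (h : TH774.TD.Nice θ) (h' : TH774.TD.Nice η) :
    TH774.TD.Nice fun x => η (θ x) where
  nonneg := fun x hx => h'.nonneg _ (h.nonneg x hx)
  le := fun x hx => (h'.le _ (h.nonneg x hx)).trans (h.le x hx)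
  mono := fun x y hx hxy => h'.mono _ _ (h.nonneg x hx) (h.mono x y hx hxy)
  lip := fun x y hx hxy =>
    (h'.lip _ _ (h.nonneg x hx) (h.mono x y hx hxy)).trans (h.lip x y hx hxy)
  top := h'.top.comp h.top

/-- Properties of slow sequences, insensitive to null perturbations, whose sets of reals are
determined, have a common base sequence along which they are constant. -/
theorem exists_base (Φ : ℕ → (ℕ → ℝ) → Prop)
    (hnull : ∀ i s t, Tendsto (fun n => s n - t n) atTop (𝓝 0) → Φ i s → Φ i t)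
    (hD : ∀ i, Determined {x | Φ i (TH774.TD.sq x)}) :
    ∃ s : ℕ → ℝ, Tendsto s atTop atTop ∧ ∀ i,
      (∀ θ, TH774.TD.Nice θ → Φ i fun n => θ (s n)) ∨
      (∀ θ, TH774.TD.Nice θ → ¬ Φ i fun n => θ (s n)) := by
  obtain ⟨z, hz⟩ := TH774.TD.const_on_cone (S := fun i => {x | Φ i (TH774.TD.sq x)})
    (fun i x y h1 h2 hx => hnull i _ _ (TH774.TD.sq_close h1 h2) hx) hD
  obtain ⟨s, -, hs, hw⟩ := TH774.TD.walk_sq z
  refine ⟨s, hs, fun i => ?_⟩
  rcases hz i with h | h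
  · left
    intro θ hθ
    obtain ⟨y, hy, c⟩ := hw θ hθ
    exact hnull i _ _ c (h y hy)
  · right
    intro θ hθ h'
    obtain ⟨y, hy, c⟩ := hw θ hθ
    refine h y hy (hnull i _ _ ?_ h')
    have := c.neg
    rw [neg_zero] at this
    exact this.congr fun n => by ring

/-! ### Sets of density zero -/

theorem DensityZero.mono {A B : Set ℕ} (hB : DensityZero B) (h : A ⊆ B) : DensityZero A := by
  refine squeeze_zero (fun N => by positivity) (fun N => ?_) hB
  refine div_le_div_of_nonneg_right ?_ (by positivity)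
  have h1 : {m | m < N ∧ m ∈ A} ⊆ {m | m < N ∧ m ∈ B} := fun m hm => ⟨hm.1, h hm.2⟩
  exact_mod_cast Set.ncard_le_ncard h1 (fin_lt N _)

theorem DensityZero.union {A B : Set ℕ} (hA : DensityZero A) (hB : DensityZero B) :
    DensityZero (A ∪ B) := by
  have h := Tendsto.add hA hB
  rw [add_zero] at h
  refine squeeze_zero (fun N => by positivity) (fun N => ?_) h
  rw [← add_div]
  refine div_le_div_of_nonneg_right ?_ (by positivity)
  have h1 : {m | m < N ∧ m ∈ A ∪ B} ⊆ {m | m < N ∧ m ∈ A} ∪ {m | m < N ∧ m ∈ B} := by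
    rintro m ⟨h1, h2 | h2⟩
    · exact Or.inl ⟨h1, h2⟩
    · exact Or.inr ⟨h1, h2⟩
  exact_mod_cast (Set.ncard_le_ncard h1 ((fin_lt N _).union (fin_lt N _))).trans
    (Set.ncard_union_le _ _)

theorem ncard_between (N : ℕ) {a b : ℝ} (hab : a ≤ b) :
    ({j : ℕ | j < N ∧ a ≤ j ∧ (j : ℝ) < b}.ncard : ℝ) ≤ b - a + 1 := by
  have h1 : (fun j : ℕ => (j : ℤ)) '' {j : ℕ | j < N ∧ a ≤ j ∧ (j : ℝ) < b} ⊆
      (Finset.Ico ⌈a⌉ ⌈b⌉ : Set ℤ) := by
    rintro _ ⟨j, ⟨-, h2, h3⟩, rfl⟩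
    rw [Finset.mem_coe, Finset.mem_Ico]
    refine ⟨Int.ceil_le.2 ?_, Int.lt_ceil.2 ?_⟩
    · exact_mod_cast h2
    · exact_mod_cast h3
  have h2 : {j : ℕ | j < N ∧ a ≤ j ∧ (j : ℝ) < b}.ncard ≤ (⌈b⌉ - ⌈a⌉).toNat := by
    have := Set.ncard_le_ncard h1 (Finset.finite_toSet _)
    rwa [Set.ncard_coe_finset, Int.card_Ico,
      Set.ncard_image_of_injective _ Nat.cast_injective] at this
  have h3 : ⌈a⌉ ≤ ⌈b⌉ := Int.ceil_le_ceil hab
  have h4 : (((⌈b⌉ - ⌈a⌉).toNat : ℕ) : ℝ) = (⌈b⌉ : ℝ) - ⌈a⌉ := by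
    have h5 : (((⌈b⌉ - ⌈a⌉).toNat : ℕ) : ℤ) = ⌈b⌉ - ⌈a⌉ := Int.toNat_of_nonneg (by omega)
    exact_mod_cast h5
  have h5 : ({j : ℕ | j < N ∧ a ≤ j ∧ (j : ℝ) < b}.ncard : ℝ) ≤ (⌈b⌉ : ℝ) - ⌈a⌉ := by
    rw [← h4]
    exact_mod_cast h2
  have h6 := Int.ceil_lt_add_one b
  have h7 := Int.le_ceil a
  linarith

/-- The time of `m`: half of one minus the relative position of `m` in its block. -/
noncomputable def tau (m : ℕ) : ℝ := (1 - pos m) / 2

theorem tau_pos (m : ℕ) : 0 < tau m := by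
  have := pos_lt_one m
  unfold tau
  linarith

theorem tau_le (m : ℕ) : tau m ≤ 1 / 2 := by
  have := pos_nonneg m
  unfold tau
  linarith

/-- counting the changes of the integer part in a block -/
theorem bc_floor (n : ℕ) {s t : ℝ} (hst : s ≤ t) (ht : t < s + 1) :
    (bc {m | ⌊s - tau m⌋ ≠ ⌊t - tau m⌋} n : ℝ) ≤ 4 * (t - s) * 2 ^ n + 2 := by
  have key : ∀ k : ℝ, (bc {m | s - k < tau m ∧ tau m ≤ t - k} n : ℝ) ≤
      2 * (t - s) * 2 ^ n + 1 := by
    intro k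
    have h0 : (0 : ℝ) < 2 ^ n := by positivity
    have h1 : {j | j < 2 ^ n ∧ 2 ^ n - 1 + j ∈ {m | s - k < tau m ∧ tau m ≤ t - k}} ⊆
        {j : ℕ | j < 2 ^ n ∧ (1 - 2 * (t - k)) * 2 ^ n ≤ j ∧ (j : ℝ) < (1 - 2 * (s - k)) * 2 ^ n} := by
      rintro j ⟨hj, h2, h3⟩
      rw [tau, pos_eq hj] at h2 h3
      refine ⟨hj, ?_, ?_⟩
      · rw [← le_div_iff₀ h0]
        linarith
      · rw [← div_lt_iff₀ h0]
        linarith
    have h2 := ncard_between (2 ^ n) (a := (1 - 2 * (t - k)) * 2 ^ n)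
      (b := (1 - 2 * (s - k)) * 2 ^ n) (mul_le_mul_of_nonneg_right (by linarith) h0.le)
    have h3 : (bc {m | s - k < tau m ∧ tau m ≤ t - k} n : ℝ) ≤ _ :=
      Nat.cast_le.2 (Set.ncard_le_ncard h1 (fin_lt _ _))
    refine h3.trans (h2.trans (le_of_eq ?_))
    ring
  have h1 : {m | ⌊s - tau m⌋ ≠ ⌊t - tau m⌋} ⊆
      {m | s - (⌊s⌋ : ℝ) < tau m ∧ tau m ≤ t - (⌊s⌋ : ℝ)} ∪
      {m | s - ((⌊s⌋ : ℝ) + 1) < tau m ∧ tau m ≤ t - ((⌊s⌋ : ℝ) + 1)} := by
    intro m hm
    have hm' : ⌊s - tau m⌋ ≠ ⌊t - tau m⌋ := hm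
    have h2 : ⌊s - tau m⌋ ≤ ⌊t - tau m⌋ := Int.floor_le_floor (by linarith)
    have h3 : ⌊s - tau m⌋ < ⌊t - tau m⌋ := lt_of_le_of_ne h2 hm'
    have h4 : s - tau m < (⌊t - tau m⌋ : ℤ) := Int.floor_lt.1 h3
    have h5 : ((⌊t - tau m⌋ : ℤ) : ℝ) ≤ t - tau m := Int.floor_le _
    have h6 := tau_pos m
    have h7 := tau_le m
    have h8 : ⌊s⌋ ≤ ⌊t - tau m⌋ := by
      have h9 : ((⌊s⌋ : ℤ) : ℝ) < ((⌊t - tau m⌋ + 1 : ℤ) : ℝ) := by
        push_cast
        have := Int.floor_le s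
        linarith
      have h10 : ⌊s⌋ < ⌊t - tau m⌋ + 1 := by exact_mod_cast h9
      omega
    have h9 : ⌊t - tau m⌋ ≤ ⌊s⌋ + 1 := by
      have h10 : ((⌊t - tau m⌋ : ℤ) : ℝ) < ((⌊s⌋ + 2 : ℤ) : ℝ) := by
        push_cast
        have := Int.lt_floor_add_one s
        linarith
      have h11 : ⌊t - tau m⌋ < ⌊s⌋ + 2 := by exact_mod_cast h10
      omega
    rcases (show ⌊t - tau m⌋ = ⌊s⌋ ∨ ⌊t - tau m⌋ = ⌊s⌋ + 1 by omega) with h10 | h10
    · left
      rw [h10] at h4 h5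
      exact ⟨by linarith, by linarith⟩
    · right
      rw [h10] at h4 h5
      push_cast at h4 h5
      exact ⟨by linarith, by linarith⟩
  have h2 := key ⌊s⌋
  have h3 := key ((⌊s⌋ : ℝ) + 1)
  have h4 : (bc {m | ⌊s - tau m⌋ ≠ ⌊t - tau m⌋} n : ℝ) ≤
      (bc {m | s - (⌊s⌋ : ℝ) < tau m ∧ tau m ≤ t - (⌊s⌋ : ℝ)} n : ℝ) +
      (bc {m | s - ((⌊s⌋ : ℝ) + 1) < tau m ∧ tau m ≤ t - ((⌊s⌋ : ℝ) + 1)} n : ℝ) := by
    exact_mod_cast (bc_mono h1 n).trans (bc_union _ _ n)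
  linarith

theorem floor_close {s t : ℕ → ℝ} (h : Tendsto (fun n => s n - t n) atTop (𝓝 0)) :
    DensityZero {m | ⌊s (blk m) - tau m⌋ ≠ ⌊t (blk m) - tau m⌋} := by
  refine densityZero_of_blocks ?_
  have h1 : Tendsto (fun n => 4 * |s n - t n| + 2 * (1 / 2) ^ n) atTop (𝓝 0) := by
    have h2 : Tendsto (fun n => 4 * |s n - t n|) atTop (𝓝 0) := by
      simpa using (h.abs).const_mul 4
    have h3 : Tendsto (fun n : ℕ => 2 * ((1 : ℝ) / 2) ^ n) atTop (𝓝 0) := by
      simpa using (tendsto_pow_atTop_nhds_zero_of_lt_one (r := (1 : ℝ) / 2) (by norm_num)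
        (by norm_num)).const_mul 2
    simpa using h2.add h3
  have h2 : ∀ᶠ n in atTop, |s n - t n| < 1 := by
    have := h.abs
    rw [abs_zero] at this
    exact this.eventually_lt_const (by norm_num)
  refine squeeze_zero' (Eventually.of_forall fun n => by positivity) ?_ h1
  filter_upwards [h2] with n hn
  have e : bc {m | ⌊s (blk m) - tau m⌋ ≠ ⌊t (blk m) - tau m⌋} n =
      bc {m | ⌊s n - tau m⌋ ≠ ⌊t n - tau m⌋} n := by
    unfold bc
    congr 1
    ext j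
    refine and_congr_right fun hj => ?_
    change ⌊s (blk (2 ^ n - 1 + j)) - _⌋ ≠ ⌊t (blk (2 ^ n - 1 + j)) - _⌋ ↔ _
    rw [blk_eq hj]
    rfl
  rw [e, div_le_iff₀ (by positivity)]
  have e2 : (4 * |s n - t n| + 2 * ((1 : ℝ) / 2) ^ n) * 2 ^ n = 4 * |s n - t n| * 2 ^ n + 2 := by
    rw [add_mul, mul_assoc 2, ← mul_pow]
    norm_num
  rw [e2]
  rcases le_total (s n) (t n) with h3 | h3
  · rw [abs_of_nonpos (by linarith)] at hn ⊢
    have := bc_floor n h3 (by linarith)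
    linarith
  · rw [abs_of_nonneg (by linarith)] at hn ⊢
    have h4 := bc_floor n h3 (by linarith)
    have e3 : {m | ⌊s n - tau m⌋ ≠ ⌊t n - tau m⌋} = {m | ⌊t n - tau m⌋ ≠ ⌊s n - tau m⌋} := by
      ext m
      exact ne_comm
    rw [e3]
    linarith

/-! ### The arcs -/

/-- The rotating arc of width `w`. -/
def arcw (w : ℝ) (s : ℕ → ℝ) : Set ℕ := {m | Int.fract (s (blk m) - tau m) < w}

theorem fract_lt_iff {w x : ℝ} : Int.fract x < w ↔ ⌊x - w⌋ < ⌊x⌋ := by
  rw [Int.floor_lt]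
  have h2 := Int.floor_add_fract x
  constructor
  · intro h
    linarith
  · intro h
    linarith

theorem arcw_close {w : ℝ} {s t : ℕ → ℝ}
    (h : Tendsto (fun n => s n - t n) atTop (𝓝 0)) :
    DensityZero (symmDiff (arcw w s) (arcw w t)) := by
  have h2 := floor_close h
  have h3 := floor_close (s := fun n => s n - w) (t := fun n => t n - w)
    (h.congr fun n => by ring)
  refine (h2.union h3).mono ?_
  intro m hm
  by_contra h4
  rw [Set.mem_union, not_or] at h4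
  obtain ⟨h5, h6⟩ := h4
  change ¬ (⌊s (blk m) - tau m⌋ ≠ ⌊t (blk m) - tau m⌋) at h5
  change ¬ (⌊s (blk m) - w - tau m⌋ ≠ ⌊t (blk m) - w - tau m⌋) at h6
  rw [not_not] at h5 h6
  have e : m ∈ arcw w s ↔ m ∈ arcw w t := by
    change Int.fract (s (blk m) - tau m) < w ↔ Int.fract (t (blk m) - tau m) < w
    rw [fract_lt_iff, fract_lt_iff, sub_right_comm, h6, h5, sub_right_comm]
  rcases hm with ⟨h7, h8⟩ | ⟨h7, h8⟩
  · exact h8 (e.1 h7)
  · exact h8 (e.2 h7)

theorem arcw_add_int (w : ℝ) (s : ℕ → ℝ) (k : ℤ) : arcw w (fun n => s n + k) = arcw w s := by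
  ext m
  change Int.fract (s (blk m) + k - tau m) < w ↔ Int.fract (s (blk m) - tau m) < w
  rw [show s (blk m) + k - tau m = s (blk m) - tau m + k by ring, Int.fract_add_intCast]

theorem notMem_arcw_int {w : ℝ} (hw : w ≤ 1 / 2) {s : ℕ → ℝ} {m : ℕ} {k : ℤ}
    (h : s (blk m) = k) : m ∉ arcw w s := by
  intro hm
  change Int.fract (s (blk m) - tau m) < w at hm
  have h1 := tau_pos m
  have h2 := tau_le m
  have h3 : Int.fract (s (blk m) - tau m) = 1 - tau m := by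
    rw [h, Int.fract_eq_iff]
    refine ⟨by linarith, by linarith, k - 1, ?_⟩
    push_cast
    ring
  rw [h3] at hm
  linarith

theorem mem_arcw_congr {w : ℝ} {s t : ℕ → ℝ} {m : ℕ} {k : ℤ} (h : t (blk m) = s (blk m) + k) :
    m ∈ arcw w t ↔ m ∈ arcw w s := by
  change Int.fract (t (blk m) - tau m) < w ↔ Int.fract (s (blk m) - tau m) < w
  rw [h, show s (blk m) + k - tau m = s (blk m) - tau m + k by ring, Int.fract_add_intCast]

theorem arcw_split {w : ℝ} (hw : w ≤ 1 / 2) (s : ℕ → ℝ) :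
    arcw w s = arcw w (fun n => (s n + TH774.TD.dl (s n)) / 2) ∪
      arcw w (fun n => (s n - TH774.TD.dl (s n)) / 2) ∧
    Disjoint (arcw w (fun n => (s n + TH774.TD.dl (s n)) / 2))
      (arcw w (fun n => (s n - TH774.TD.dl (s n)) / 2)) := by
  constructor
  · ext m
    obtain ⟨i, j, ⟨h1, h2⟩ | ⟨h1, h2⟩⟩ := dl_split (s (blk m))
    · have e1 : m ∉ arcw w (fun n => (s n + TH774.TD.dl (s n)) / 2) := notMem_arcw_int hw h1
      have e2 : m ∈ arcw w (fun n => (s n - TH774.TD.dl (s n)) / 2) ↔ m ∈ arcw w s :=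
        mem_arcw_congr h2
      rw [Set.mem_union, e2]
      exact ⟨Or.inr, fun h => h.resolve_left e1⟩
    · have e1 : m ∉ arcw w (fun n => (s n - TH774.TD.dl (s n)) / 2) := notMem_arcw_int hw h2
      have e2 : m ∈ arcw w (fun n => (s n + TH774.TD.dl (s n)) / 2) ↔ m ∈ arcw w s :=
        mem_arcw_congr h1
      rw [Set.mem_union, e2]
      exact ⟨Or.inl, fun h => h.resolve_right e1⟩
  · rw [Set.disjoint_left]
    intro m hm hm'
    obtain ⟨i, j, ⟨h1, h2⟩ | ⟨h1, h2⟩⟩ := dl_split (s (blk m))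
    · exact notMem_arcw_int (s := fun n => (s n + TH774.TD.dl (s n)) / 2) hw h1 hm
    · exact notMem_arcw_int (s := fun n => (s n - TH774.TD.dl (s n)) / 2) hw h2 hm'

theorem arcw_one (s : ℕ → ℝ) : arcw 1 s = Set.univ := by
  ext m
  change Int.fract (s (blk m) - tau m) < 1 ↔ True
  exact ⟨fun _ => trivial, fun _ => Int.fract_lt_one _⟩

theorem arcw_zero (s : ℕ → ℝ) : arcw 0 s = ∅ := by
  ext m
  exact ⟨fun h => absurd (Int.fract_nonneg (s (blk m) - tau m)) (not_le.2 h), fun h => h.elim⟩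

/-- An arc of width `v + w` is the union of an arc of width `v` and a later one of width `w`. -/
theorem arcw_add {v w : ℝ} (hv : 0 ≤ v) (hw : 0 ≤ w) (h : v + w ≤ 1) (s : ℕ → ℝ) :
    arcw (v + w) s = arcw v s ∪ arcw w (fun n => s n - v) ∧
    Disjoint (arcw v s) (arcw w (fun n => s n - v)) := by
  have key : ∀ x : ℝ, (Int.fract x < v → ¬ Int.fract (x - v) < w) ∧
      (¬ Int.fract x < v → (Int.fract (x - v) < w ↔ Int.fract x < v + w)) := by
    intro x
    have h1 := Int.fract_nonneg x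
    have h2 := Int.fract_lt_one x
    have h3 := Int.floor_add_fract x
    constructor
    · intro h4 h5
      have h6 : Int.fract (x - v) = Int.fract x - v + 1 := by
        rw [Int.fract_eq_iff]
        refine ⟨by linarith, by linarith, ⌊x⌋ - 1, ?_⟩
        push_cast
        linarith
      rw [h6] at h5
      linarith
    · intro h4
      rw [not_lt] at h4
      have h6 : Int.fract (x - v) = Int.fract x - v := by
        rw [Int.fract_eq_iff]
        refine ⟨by linarith, by linarith, ⌊x⌋, ?_⟩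
        linarith
      rw [h6]
      constructor <;> intro h7 <;> linarith
  constructor
  · ext m
    have h1 := key (s (blk m) - tau m)
    rw [show s (blk m) - tau m - v = s (blk m) - v - tau m by ring] at h1
    change Int.fract (s (blk m) - tau m) < v + w ↔ Int.fract (s (blk m) - tau m) < v ∨
      Int.fract (s (blk m) - v - tau m) < w
    by_cases h2 : Int.fract (s (blk m) - tau m) < v
    · exact ⟨fun _ => Or.inl h2, fun _ => by linarith⟩
    · rw [h1.2 h2]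
      exact ⟨Or.inr, fun h => h.resolve_left h2⟩
  · rw [Set.disjoint_left]
    intro m hm hm'
    have h1 := key (s (blk m) - tau m)
    rw [show s (blk m) - tau m - v = s (blk m) - v - tau m by ring] at h1
    exact h1.1 hm hm'

end Pool.Agent.U72.TD
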