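import Pool.Agent.U72.TD.Torus

set_option autoImplicit false

/-! # Colourings by elements of abelian groups -/

namespace Pool.Agent.U72.TD

open Filter Topology
open Pool.Agent.H685R3 Pool.Agent.Helper227

universe u v

variable {d : ℕ} {Γ : Type u} [AddCommGroup Γ]

/-- The integer combination of the elements `g i` with coefficients `k i`. -/
def comb (g : Fin d → Γ) (k : Fin d → ℤ) : Γ := ∑ i, k i • g i

/-- The rotating colouring: the colour of `m` is the combination of the elements `g i` with the
coefficients `⌊t (blk m) i - tau m⌋`. -/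
noncomputable def col (g : Fin d → Γ) (t : ℕ → Fin d → ℝ) (m : ℕ) : Γ :=
  comb g fun i => ⌊t (blk m) i - tau m⌋

theorem col_add (g : Fin d → Γ) (t : ℕ → Fin d → ℝ) (k : Fin d → ℤ) :
    col g (fun n => t n + fun i => (k i : ℝ)) = fun m => comb g k + col g t m := by
  funext m
  unfold col comb
  rw [← Finset.sum_add_distrib]
  refine Finset.sum_congr rfl fun i _ => ?_
  rw [← add_smul]
  congr 1
  simp only [Pi.add_apply]
  rw [show t (blk m) i + (k i : ℝ) - tau m = t (blk m) i - tau m + (k i : ℤ) by ring,
    Int.floor_add_intCast, add_comm]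

theorem densityZero_iUnion {ι : Type*} (s : Finset ι) (A : ι → Set ℕ)
    (h : ∀ i ∈ s, DensityZero (A i)) : DensityZero {m | ∃ i ∈ s, m ∈ A i} := by
  classical
  induction s using Finset.induction_on with
  | empty =>
    have e : {m : ℕ | ∃ i ∈ (∅ : Finset ι), m ∈ A i} = ∅ := by
      ext m
      simp
    rw [e]
    refine (tendsto_const_nhds (x := (0 : ℝ))).congr fun N => ?_
    simp
  | insert a s ha ih =>
    refine ((h a (Finset.mem_insert_self a s)).union
      (ih fun i hi => h i (Finset.mem_insert_of_mem hi))).mono ?_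
    rintro m ⟨i, hi, hm⟩
    rcases Finset.mem_insert.1 hi with rfl | hi
    · exact Or.inl hm
    · exact Or.inr ⟨i, hi, hm⟩

theorem col_close (g : Fin d → Γ) {s t : ℕ → Fin d → ℝ}
    (h : ∀ i, Tendsto (fun n => s n i - t n i) atTop (𝓝 0)) :
    DensityZero {m | col g s m ≠ col g t m} := by
  refine (densityZero_iUnion Finset.univ
    (fun i => {m | ⌊s (blk m) i - tau m⌋ ≠ ⌊t (blk m) i - tau m⌋})
    fun i _ => floor_close (s := fun n => s n i) (t := fun n => t n i) (h i)).mono ?_
  intro m hm
  by_contra h1
  refine hm ?_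
  unfold col
  congr 1
  funext i
  by_contra h2
  exact h1 ⟨i, Finset.mem_univ i, h2⟩

/-- `F` does not change when the colouring is changed on a set of density zero. -/
def ModDensity {Y : Type v} (F : (ℕ → Γ) → Y) : Prop :=
  ∀ χ χ' : ℕ → Γ, DensityZero {m | χ m ≠ χ' m} → F χ = F χ'

theorem exists_comb (g : Fin d → Γ) {γ : Γ} (h : γ ∈ AddSubgroup.closure (Set.range g)) :
    ∃ k : Fin d → ℤ, comb g k = γ := by
  induction h using AddSubgroup.closure_induction with
  | mem x hx =>
    obtain ⟨i, rfl⟩ := hx
    classical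
    refine ⟨Pi.single i 1, ?_⟩
    unfold comb
    rw [Finset.sum_eq_single i]
    · simp
    · intro j _ hj
      simp [Pi.single_eq_of_ne hj]
    · intro hi
      exact absurd (Finset.mem_univ i) hi
  | zero => exact ⟨0, by simp [comb]⟩
  | add x y _ _ hx hy =>
    obtain ⟨k, rfl⟩ := hx
    obtain ⟨l, rfl⟩ := hy
    exact ⟨k + l, by simp [comb, add_smul, Finset.sum_add_distrib]⟩
  | neg x _ hx =>
    obtain ⟨k, rfl⟩ := hx
    exact ⟨-k, by simp [comb]⟩

/-- Maps into the Cantor space. -/
theorem color_cantor (g : Fin d → Γ) {F : (ℕ → Γ) → ℕ → Bool} (hF : ModDensity F)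
    (hD : ∀ (i : Fin d) (t : ℕ → Fin d → ℝ) (j : ℕ), Determined {x |
      iter TH774.TD.sq (fun t => F (col g t)) i (upd t i (TH774.TD.sq x)) j = true}) :
    ∃ χ : ℕ → Γ, ∀ γ ∈ AddSubgroup.closure (Set.range g), F (fun m => γ + χ m) = F χ := by
  obtain ⟨c, hc⟩ := torus (Ψ := fun t => F (col g t)) (fun s t h => hF _ _ (col_close g h)) hD
  obtain ⟨e, he⟩ := exists_surjective_nat (Fin d → ℤ)
  obtain ⟨s, -, hs⟩ := hc fun l i => (e l i : ℝ)
  have h1 : ∀ k : Fin d → ℤ, F (fun m => comb g k + col g s m) = c := by
    intro k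
    obtain ⟨l, rfl⟩ := he k
    rw [← col_add]
    exact hs l
  refine ⟨col g s, fun γ hγ => ?_⟩
  obtain ⟨k, rfl⟩ := exists_comb g hγ
  rw [h1 k, ← h1 0]
  congr 1
  funext m
  simp [comb]

variable {Y : Type v} [LinearOrder Y]

/-- The pattern of the comparisons between the values of `F` at the translates of the rotating
colouring. -/
noncomputable def pattern (g : Fin d → Γ) (F : (ℕ → Γ) → Y) (t : ℕ → Fin d → ℝ) (j : ℕ) : Bool :=
  match (Encodable.decode j : Option ((Fin d → ℤ) × (Fin d → ℤ))) with
  | some kl => decide (F (fun m => comb g kl.1 + col g t m) ≤ F (fun m => comb g kl.2 + col g t m))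
  | none => false

theorem pattern_null (g : Fin d → Γ) {F : (ℕ → Γ) → Y} (hF : ModDensity F) :
    NullInv (pattern g F) := by
  intro s t h
  have h1 : ∀ k : Fin d → ℤ, F (fun m => comb g k + col g s m) =
      F (fun m => comb g k + col g t m) := by
    intro k
    refine hF _ _ ((col_close g h).mono fun m hm h2 => hm ?_)
    rw [h2]
  funext j
  unfold pattern
  simp only [h1]

/-- Maps into linear orders. -/
theorem color_linear (g : Fin d → Γ) {F : (ℕ → Γ) → Y} (hF : ModDensity F)
    (hD : ∀ (i : Fin d) (t : ℕ → Fin d → ℝ) (j : ℕ), Determined {x |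
      iter TH774.TD.sq (pattern g F) i (upd t i (TH774.TD.sq x)) j = true}) :
    ∃ χ : ℕ → Γ, ∀ γ ∈ AddSubgroup.closure (Set.range g), IsOfFinAddOrder γ →
      F (fun m => γ + χ m) = F χ := by
  obtain ⟨c, hc⟩ := torus (pattern_null g hF) hD
  obtain ⟨e, he⟩ := exists_surjective_nat (Fin d → ℤ)
  obtain ⟨s, -, hs⟩ := hc fun l i => (e l i : ℝ)
  have h1 : ∀ k : Fin d → ℤ, pattern g F (fun n => s n + fun i => (k i : ℝ)) = c := by
    intro k
    obtain ⟨l, rfl⟩ := he k
    exact hs l
  have hadd : ∀ a b : Fin d → ℤ, comb g (a + b) = comb g a + comb g b := by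
    intro a b
    simp [comb, add_smul, Finset.sum_add_distrib]
  -- translation does not change the comparisons
  have h2 : ∀ k a b : Fin d → ℤ,
      F (fun m => comb g (a + k) + col g s m) ≤ F (fun m => comb g (b + k) + col g s m) ↔
      F (fun m => comb g a + col g s m) ≤ F (fun m => comb g b + col g s m) := by
    intro k a b
    have h3 := congrFun (h1 k) (Encodable.encode (a, b))
    have h4 := congrFun (h1 0) (Encodable.encode (a, b))
    rw [← h4] at h3
    unfold pattern at h3
    simp only [Encodable.encodek, decide_eq_decide] at h3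
    have h5 : ∀ k : Fin d → ℤ, col g (fun n => s n + fun i => (k i : ℝ)) =
      fun m => comb g k + col g s m := fun k => col_add g s k
    simp only [h5] at h3
    have h6 : ∀ m, comb g (0 : Fin d → ℤ) + col g s m = col g s m := by
      intro m
      simp [comb]
    simp only [h6, ← add_assoc] at h3
    simp only [hadd]
    exact h3
  refine ⟨col g s, fun γ hγ hfin => ?_⟩
  obtain ⟨k, rfl⟩ := exists_comb g hγ
  obtain ⟨n, hn, hn0⟩ := isOfFinAddOrder_iff_nsmul_eq_zero.1 hfin
  have hn0' : comb g (n • k) = 0 := by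
    rw [← hn0]
    simp [comb, Finset.smul_sum, mul_smul]
  have h0 : (fun m => comb g (0 : Fin d → ℤ) + col g s m) = col g s := by
    funext m
    simp [comb]
  have hnn : (fun m => comb g (n • k) + col g s m) = col g s := by
    funext m
    rw [hn0', zero_add]
  have h7 : ∀ j : ℕ,
      (F (fun m => comb g (j • k) + col g s m) ≤ F (fun m => comb g ((j + 1) • k) + col g s m) ↔
        F (col g s) ≤ F (fun m => comb g k + col g s m)) ∧
      (F (fun m => comb g ((j + 1) • k) + col g s m) ≤ F (fun m => comb g (j • k) + col g s m) ↔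
        F (fun m => comb g k + col g s m) ≤ F (col g s)) := by
    intro j
    have e1 := h2 (j • k) 0 k
    have e2 := h2 (j • k) k 0
    rw [zero_add, h0] at e1 e2
    rw [show (j + 1) • k = k + j • k by rw [succ_nsmul, add_comm]]
    exact ⟨e1, e2⟩
  rcases le_total (F (fun m => comb g k + col g s m)) (F (col g s)) with h | h
  · refine le_antisymm h ?_
    have h8 : ∀ j : ℕ, F (fun m => comb g ((j + 1) • k) + col g s m) ≤
        F (fun m => comb g k + col g s m) := by
      intro j
      induction j with
      | zero => simp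
      | succ j ih => exact ((h7 (j + 1)).2.2 h).trans ih
    have h9 := h8 (n - 1)
    rw [show n - 1 + 1 = n by omega, hnn] at h9
    exact h9
  · refine le_antisymm ?_ h
    have h8 : ∀ j : ℕ, F (fun m => comb g k + col g s m) ≤
        F (fun m => comb g ((j + 1) • k) + col g s m) := by
      intro j
      induction j with
      | zero => simp
      | succ j ih => exact ih.trans ((h7 (j + 1)).1.2 h)
    have h9 := h8 (n - 1)
    rw [show n - 1 + 1 = n by omega, hnn] at h9
    exact h9

end Pool.Agent.U72.TD
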