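import Pool.Agent.U72.TD.Sel

set_option autoImplicit false

/-! # Selectors on coset spaces -/

namespace Pool.Agent.U72.TD

open Filter Topology
open Pool.Agent.H685R3 Pool.Agent.Helper227

universe u

variable {X : Type u} [Group X]

theorem commute_of_additive {μ : Set ℕ → X}
    (hadd : ∀ S T, Disjoint S T → μ (S ∪ T) = μ S * μ T) (S T : Set ℕ) :
    μ S * μ T = μ T * μ S := by
  have hd : ∀ P R : Set ℕ, Disjoint P R → Commute (μ P) (μ R) := by
    intro P R h
    change μ P * μ R = μ R * μ P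
    rw [← hadd P R h, ← hadd R P h.symm, Set.union_comm]
  have h1 : Disjoint (S ∩ T) (S \ T) := Set.disjoint_left.2 fun m hm hm' => hm'.2 hm.2
  have h2 : Disjoint (T ∩ S) (T \ S) := Set.disjoint_left.2 fun m hm hm' => hm'.2 hm.2
  have h3 : Disjoint (S \ T) (T \ S) := Set.disjoint_left.2 fun m hm hm' => hm'.2 hm.1
  have e1 : μ S = μ (S ∩ T) * μ (S \ T) := by
    rw [← hadd _ _ h1, Set.inter_union_sdiff]
  have e2 : μ T = μ (S ∩ T) * μ (T \ S) := by
    rw [Set.inter_comm, ← hadd _ _ h2, Set.inter_union_sdiff]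
  have c1 := hd _ _ h1
  have c2 : Commute (μ (S ∩ T)) (μ (T \ S)) := by
    rw [Set.inter_comm]
    exact hd _ _ h2
  have c3 := hd _ _ h3
  rw [e1, e2]
  exact ((Commute.refl _).mul_left c1.symm).mul_right (c2.mul_left c3)

/-- The theorem on selectors for coset spaces. -/
theorem selector_coset (μ : Set ℕ → X) (hadd : ∀ S T, Disjoint S T → μ (S ∪ T) = μ S * μ T)
    (K : Subgroup X) (hK : ∀ S, DensityZero S → μ S ∈ K) {q : ℕ} (hq : 2 ≤ q)
    (sel : (Fin q → X ⧸ K) → Set (Fin q)) (hsel : IsSelector q sel)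
    (hS : ∀ j : Fin q, Determined {x | j ∈ sel fun i : Fin q =>
      ((μ (arcw (1 / q) fun n => TH774.TD.sq x n - (i : ℝ) / q) : X) : X ⧸ K)})
    (hR : ∀ j : Fin q, Determined {x | ((μ (arcw (1 / q) (TH774.TD.sq x)) : X) : X ⧸ K) =
      ((μ (arcw (1 / q) fun n => TH774.TD.sq x n - (j : ℝ) / q) : X) : X ⧸ K)}) :
    μ Set.univ ∈ K := by
  have hcomm : ∀ x ∈ Set.range μ, ∀ y ∈ Set.range μ, x * y = y * x := by
    rintro _ ⟨S, rfl⟩ _ ⟨T, rfl⟩
    exact commute_of_additive hadd S T
  set C := Subgroup.closure (Set.range μ) with hC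
  letI : CommGroup C := Subgroup.closureCommGroupOfComm hcomm
  have hmem : ∀ S, μ S ∈ C := fun S => Subgroup.subset_closure ⟨S, rfl⟩
  let ν : Set ℕ → Additive (C ⧸ K.subgroupOf C) := fun S =>
    Additive.ofMul ((⟨μ S, hmem S⟩ : C) : C ⧸ K.subgroupOf C)
  have hνadd : ∀ S T, Disjoint S T → ν (S ∪ T) = ν S + ν T := by
    intro S T h
    change Additive.ofMul (((⟨μ (S ∪ T), hmem _⟩ : C)) : C ⧸ K.subgroupOf C) =
      Additive.ofMul ((((⟨μ S, hmem S⟩ : C) * (⟨μ T, hmem T⟩ : C) : C)) : C ⧸ K.subgroupOf C)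
    congr 2
    exact Subtype.ext (hadd S T h)
  have hνnull : ∀ S, DensityZero S → ν S = 0 := by
    intro S h
    change Additive.ofMul (((⟨μ S, hmem _⟩ : C)) : C ⧸ K.subgroupOf C) = Additive.ofMul 1
    congr 1
    rw [QuotientGroup.eq_one_iff, Subgroup.mem_subgroupOf]
    exact hK S h
  -- the embedding into the coset space
  let ι : Additive (C ⧸ K.subgroupOf C) → X ⧸ K := fun a =>
    Quotient.map' (s₁ := QuotientGroup.leftRel (K.subgroupOf C)) (s₂ := QuotientGroup.leftRel K)
      (fun c : C => (c : X)) (by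
        intro a b h
        rw [QuotientGroup.leftRel_apply] at h ⊢
        rw [Subgroup.mem_subgroupOf] at h
        exact h) (Additive.toMul a)
  have hι : Function.Injective ι := by
    intro a b
    induction a using Additive.rec with | _ a
    induction b using Additive.rec with | _ b
    induction a using Quotient.inductionOn' with | _ a
    induction b using Quotient.inductionOn' with | _ b
    intro h
    have h1 : ((a : X) : X ⧸ K) = ((b : X) : X ⧸ K) := h
    rw [QuotientGroup.eq] at h1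
    have h2 : ((a : C) : C ⧸ K.subgroupOf C) = ((b : C) : C ⧸ K.subgroupOf C) := by
      rw [QuotientGroup.eq, Subgroup.mem_subgroupOf]
      exact h1
    exact congrArg Additive.ofMul h2
  have hιν : ∀ S, ι (ν S) = ((μ S : X) : X ⧸ K) := fun S => rfl
  let sel' : (Fin q → Additive (C ⧸ K.subgroupOf C)) → Set (Fin q) := fun a => sel (ι ∘ a)
  have hsel' : IsSelector q sel' :=
    { nonempty := fun a ha => hsel.nonempty _ (hι.comp ha)
      ne_univ := fun a ha => hsel.ne_univ _ (hι.comp ha)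
      perm := fun a ha π => hsel.perm _ (hι.comp ha) π }
  have h1 := selector_core q sel' ν hq hsel' hνadd hνnull (fun j => hS j) (fun j => by
    have h2 := hR j
    have e : ∀ P R : Set ℕ, ν P = ν R ↔ ((μ P : X) : X ⧸ K) = ((μ R : X) : X ⧸ K) := by
      intro P R
      rw [← hιν, ← hιν]
      exact hι.eq_iff.symm
    simp only [e]
    exact h2)
  have h2 : ((⟨μ Set.univ, hmem _⟩ : C) : C ⧸ K.subgroupOf C) = 1 := h1
  rw [QuotientGroup.eq_one_iff, Subgroup.mem_subgroupOf] at h2
  exact h2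

/-- The sets of the theorem are Turing invariant. -/
theorem coset_close (μ : Set ℕ → X) (hadd : ∀ S T, Disjoint S T → μ (S ∪ T) = μ S * μ T)
    (K : Subgroup X) (hK : ∀ S, DensityZero S → μ S ∈ K) {P R : Set ℕ}
    (h : DensityZero (symmDiff P R)) : ((μ P : X) : X ⧸ K) = ((μ R : X) : X ⧸ K) := by
  have e1 : ∀ P R : Set ℕ, DensityZero (symmDiff P R) →
      ((μ P : X) : X ⧸ K) = ((μ (P ∩ R) : X) : X ⧸ K) := by
    intro P R h
    have e2 : P = P ∩ R ∪ P \ R := (Set.inter_union_sdiff P R).symm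
    have e3 : μ (P \ R) ∈ K := hK _ (h.mono fun m hm => Or.inl hm)
    have e4 : μ P = μ (P ∩ R ∪ P \ R) := congrArg μ e2
    rw [e4, hadd _ _ (Set.disjoint_left.2 fun m hm hm' => hm'.2 hm.2)]
    refine (QuotientGroup.eq.2 ?_).symm
    rw [inv_mul_cancel_left]
    exact e3
  rw [e1 P R h, e1 R P (by rwa [symmDiff_comm]), Set.inter_comm]

end Pool.Agent.U72.TD
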