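import Pool.Agent.U72.TD.Loop

set_option autoImplicit false

/-! # Products of arbitrary groups modulo density zero -/

namespace Pool.Agent.U72.TD

open Filter Topology
open Pool.Agent.H685R3 Pool.Agent.Helper227

universe u

/-- The dyadic block of a natural number: `2 ^ blk m ≤ m + 1 < 2 ^ (blk m + 1)`. -/
def blk (m : ℕ) : ℕ := Nat.log 2 (m + 1)

/-- The relative position of `m` in its dyadic block, a number of the interval `[0, 1)`. -/
noncomputable def pos (m : ℕ) : ℝ := ((m : ℝ) + 1 - 2 ^ blk m) / 2 ^ blk m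

theorem blk_eq {n j : ℕ} (hj : j < 2 ^ n) : blk (2 ^ n - 1 + j) = n := by
  have h1 : 0 < 2 ^ n := by positivity
  have h2 : 2 ^ n - 1 + j + 1 = 2 ^ n + j := by omega
  rw [blk, h2]
  refine (Nat.log_eq_iff (Or.inr ⟨by norm_num, by omega⟩)).2 ⟨by omega, ?_⟩
  rw [pow_succ]
  omega

theorem pow_blk_le (m : ℕ) : 2 ^ blk m ≤ m + 1 := Nat.pow_log_le_self 2 (by omega)

theorem lt_pow_blk (m : ℕ) : m + 1 < 2 ^ (blk m + 1) := Nat.lt_pow_succ_log_self (by norm_num) _

theorem exists_blk (m : ℕ) : ∃ j, j < 2 ^ blk m ∧ 2 ^ blk m - 1 + j = m := by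
  have h1 := pow_blk_le m
  have h2 := lt_pow_blk m
  rw [pow_succ] at h2
  have h3 : 0 < 2 ^ blk m := by positivity
  exact ⟨m + 1 - 2 ^ blk m, by omega, by omega⟩

theorem pos_eq {n j : ℕ} (hj : j < 2 ^ n) : pos (2 ^ n - 1 + j) = (j : ℝ) / 2 ^ n := by
  have h1 : 1 ≤ 2 ^ n := Nat.one_le_two_pow
  rw [pos, blk_eq hj]
  push_cast [h1]
  congr 1
  ring

theorem pos_nonneg (m : ℕ) : 0 ≤ pos m := by
  obtain ⟨j, hj, h⟩ := exists_blk m
  rw [← h, pos_eq hj]
  positivity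

theorem pos_lt_one (m : ℕ) : pos m < 1 := by
  obtain ⟨j, hj, h⟩ := exists_blk m
  rw [← h, pos_eq hj, div_lt_one (by positivity)]
  exact_mod_cast hj

/-- The number of elements of `A` in the `n`-th block. -/
noncomputable def bc (A : Set ℕ) (n : ℕ) : ℕ := {j | j < 2 ^ n ∧ 2 ^ n - 1 + j ∈ A}.ncard

/-- Asymptotic density zero. -/
def DensityZero (A : Set ℕ) : Prop :=
  Tendsto (fun N : ℕ => ({m | m < N ∧ m ∈ A}.ncard : ℝ) / N) atTop (𝓝 0)

theorem fin_lt (N : ℕ) (p : ℕ → Prop) : {j | j < N ∧ p j}.Finite :=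
  (Set.finite_Iio N).subset fun _ h => h.1

theorem card_le_sum (A : Set ℕ) (n : ℕ) :
    {m | m < 2 ^ n - 1 ∧ m ∈ A}.ncard ≤ ∑ i ∈ Finset.range n, bc A i := by
  induction n with
  | zero => simp
  | succ n ih =>
    rw [Finset.sum_range_succ]
    have h1 : {m | m < 2 ^ (n + 1) - 1 ∧ m ∈ A} ⊆ {m | m < 2 ^ n - 1 ∧ m ∈ A} ∪
        (fun j => 2 ^ n - 1 + j) '' {j | j < 2 ^ n ∧ 2 ^ n - 1 + j ∈ A} := by
      intro m hm
      obtain ⟨h2, hm2⟩ := hm
      rcases lt_or_ge m (2 ^ n - 1) with h | h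
      · exact Or.inl ⟨h, hm2⟩
      · right
        rw [pow_succ] at h2
        have h3 : 0 < 2 ^ n := by positivity
        have h4 : 2 ^ n - 1 + (m - (2 ^ n - 1)) = m := by omega
        refine ⟨m - (2 ^ n - 1), ⟨by omega, ?_⟩, h4⟩
        rw [h4]
        exact hm2
    refine (Set.ncard_le_ncard h1 ((fin_lt _ _).union ((fin_lt _ _).image _))).trans
      ((Set.ncard_union_le _ _).trans ?_)
    exact add_le_add ih (Set.ncard_image_le (fin_lt _ _))

theorem sum_pow_two (n : ℕ) : ∑ i ∈ Finset.range n, (2 : ℝ) ^ i = 2 ^ n - 1 := by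
  rw [geom_sum_eq (by norm_num)]
  norm_num

theorem densityZero_of_blocks {A : Set ℕ}
    (h : Tendsto (fun n => (bc A n : ℝ) / 2 ^ n) atTop (𝓝 0)) : DensityZero A := by
  have h1 : (fun n => (bc A n : ℝ)) =o[atTop] fun n => (2 : ℝ) ^ n := by
    refine (Asymptotics.isLittleO_iff_tendsto fun n hn => ?_).2 h
    exact absurd hn (by positivity)
  have h2 : Tendsto (fun n => ∑ i ∈ Finset.range n, (2 : ℝ) ^ i) atTop atTop := by
    simp_rw [sum_pow_two, sub_eq_add_neg]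
    exact tendsto_atTop_add_const_right _ _ (tendsto_pow_atTop_atTop_of_one_lt (by norm_num))
  have h3 := h1.sum_range (fun n => by positivity) h2
  have h4 : Tendsto blk atTop atTop := by
    refine tendsto_atTop.2 fun b => ?_
    filter_upwards [eventually_ge_atTop (2 ^ b)] with m hm
    exact Nat.le_log_of_pow_le (by norm_num) (by omega)
  have h5 : Tendsto (fun N => blk N + 1) atTop atTop := (tendsto_add_atTop_nat 1).comp h4
  rw [Asymptotics.isLittleO_iff] at h3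
  unfold DensityZero
  rw [Metric.tendsto_atTop]
  intro ε hε
  have h6 := h3 (show (0 : ℝ) < ε / 8 by positivity)
  obtain ⟨N₀, hN₀⟩ := eventually_atTop.1 (h5.eventually h6)
  refine ⟨N₀ + 1, fun N hN => ?_⟩
  have h7 := hN₀ N (by omega)
  have hN0 : (0 : ℝ) < N := by
    have : 0 < N := by omega
    exact_mod_cast this
  have h8 : {m | m < N ∧ m ∈ A}.ncard ≤ ∑ i ∈ Finset.range (blk N + 1), bc A i := by
    refine le_trans (Set.ncard_le_ncard ?_ (fin_lt _ _)) (card_le_sum A (blk N + 1))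
    have h9 := lt_pow_blk N
    intro m hm
    exact ⟨by have := hm.1; omega, hm.2⟩
  have h9 : ∑ i ∈ Finset.range (blk N + 1), (bc A i : ℝ) ≤ ε / 8 * 2 ^ (blk N + 1) := by
    have e1 := (le_abs_self _).trans h7
    rw [sum_pow_two] at e1
    refine e1.trans (mul_le_mul_of_nonneg_left ?_ (by positivity))
    rw [Real.norm_eq_abs, abs_of_nonneg]
    · linarith
    · have : (1 : ℝ) ≤ 2 ^ (blk N + 1) := one_le_pow₀ (by norm_num)
      linarith
  have h10 : (2 : ℝ) ^ (blk N + 1) ≤ 4 * N := by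
    have e1 := pow_blk_le N
    have e2 : (2 : ℝ) ^ blk N ≤ N + 1 := by exact_mod_cast e1
    have e3 : (1 : ℝ) ≤ N := by
      have : 1 ≤ N := by omega
      exact_mod_cast this
    rw [pow_succ]
    linarith
  have h11 : ({m | m < N ∧ m ∈ A}.ncard : ℝ) ≤ ε / 2 * N := by
    have e1 : ({m | m < N ∧ m ∈ A}.ncard : ℝ) ≤
        ∑ i ∈ Finset.range (blk N + 1), (bc A i : ℝ) := by exact_mod_cast h8
    have e2 : ε / 8 * 2 ^ (blk N + 1) ≤ ε / 8 * (4 * N) :=
      mul_le_mul_of_nonneg_left h10 (by positivity)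
    linarith
  rw [Real.dist_eq, sub_zero, abs_of_nonneg (by positivity), div_lt_iff₀ hN0]
  nlinarith

variable {H : ℕ → Type u} [∀ m, Group (H m)]

/-- The proportion of the block `n` on which `a` is not trivial. -/
noncomputable def bl (n : ℕ) (a : ∀ m, H m) : ℝ := (bc {m | a m ≠ 1} n : ℝ) / 2 ^ n

theorem bc_mono {A B : Set ℕ} (h : A ⊆ B) (n : ℕ) : bc A n ≤ bc B n :=
  Set.ncard_le_ncard (fun _ hj => ⟨hj.1, h hj.2⟩) (fin_lt _ _)

theorem bc_union (A B : Set ℕ) (n : ℕ) : bc (A ∪ B) n ≤ bc A n + bc B n := by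
  have h1 : {j | j < 2 ^ n ∧ 2 ^ n - 1 + j ∈ A ∪ B} ⊆
      {j | j < 2 ^ n ∧ 2 ^ n - 1 + j ∈ A} ∪ {j | j < 2 ^ n ∧ 2 ^ n - 1 + j ∈ B} := by
    rintro j ⟨hj, h | h⟩
    · exact Or.inl ⟨hj, h⟩
    · exact Or.inr ⟨hj, h⟩
  exact (Set.ncard_le_ncard h1 ((fin_lt _ _).union (fin_lt _ _))).trans (Set.ncard_union_le _ _)

theorem isLength_bl (n : ℕ) : IsLength (bl (H := H) n) where
  one := by
    unfold bl bc
    simp
  nonneg := fun a => by unfold bl; positivity
  inv := by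
    intro a
    unfold bl
    simp only [Pi.inv_apply, ne_eq, inv_eq_one]
  mul := by
    intro a b
    have h1 : bc {m | (a * b) m ≠ 1} n ≤ bc {m | a m ≠ 1} n + bc {m | b m ≠ 1} n := by
      refine (bc_mono ?_ n).trans (bc_union _ _ n)
      intro m hm
      by_contra h
      have h1 : a m = 1 := by
        by_contra h2
        exact h (Or.inl h2)
      have h2 : b m = 1 := by
        by_contra h2
        exact h (Or.inr h2)
      exact hm (by rw [Pi.mul_apply, h1, h2, one_mul])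
    have h2 : (bc {m | (a * b) m ≠ 1} n : ℝ) ≤ bc {m | a m ≠ 1} n + bc {m | b m ≠ 1} n := by
      exact_mod_cast h1
    unfold bl
    rw [← add_div]
    exact div_le_div_of_nonneg_right h2 (by positivity)
  conj := by
    intro a b
    unfold bl
    simp only [Pi.mul_apply, Pi.inv_apply, ne_eq, conj_eq_one_iff]

/-- The part of `g` at the positions below `t`. -/
noncomputable def cutPath (g : ∀ m, H m) (_n : ℕ) (t : ℝ) : ∀ m, H m := fun m =>
  if pos m < t then g m else 1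

theorem card_between (n : ℕ) {s t : ℝ} (hs : 0 ≤ s) (hst : s ≤ t) :
    (bc {m | s ≤ pos m ∧ pos m < t} n : ℝ) ≤ (t - s) * 2 ^ n + 1 := by
  have h1 : {j | j < 2 ^ n ∧ 2 ^ n - 1 + j ∈ {m | s ≤ pos m ∧ pos m < t}} ⊆
      (Finset.Ico ⌈s * 2 ^ n⌉₊ ⌈t * 2 ^ n⌉₊ : Set ℕ) := by
    rintro j ⟨hj, h2, h3⟩
    rw [pos_eq hj, le_div_iff₀ (by positivity)] at h2
    rw [pos_eq hj, div_lt_iff₀ (by positivity)] at h3
    rw [Finset.mem_coe, Finset.mem_Ico]
    exact ⟨Nat.ceil_le.2 h2, Nat.lt_ceil.2 h3⟩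
  have h2 : bc {m | s ≤ pos m ∧ pos m < t} n ≤ ⌈t * 2 ^ n⌉₊ - ⌈s * 2 ^ n⌉₊ := by
    have := Set.ncard_le_ncard h1 (Finset.finite_toSet _)
    rwa [Set.ncard_coe_finset, Nat.card_Ico] at this
  have h3 : ⌈s * 2 ^ n⌉₊ ≤ ⌈t * 2 ^ n⌉₊ :=
    Nat.ceil_le_ceil (mul_le_mul_of_nonneg_right hst (by positivity))
  have h4 : (bc {m | s ≤ pos m ∧ pos m < t} n : ℝ) ≤ (⌈t * 2 ^ n⌉₊ : ℝ) - ⌈s * 2 ^ n⌉₊ := by
    rw [← Nat.cast_sub h3]
    exact_mod_cast h2
  have h0 : 0 ≤ t * 2 ^ n := mul_nonneg (hs.trans hst) (by positivity)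
  have h5 := Nat.ceil_lt_add_one h0
  have h6 := Nat.le_ceil (s * (2 : ℝ) ^ n)
  linarith

theorem cutPath_close (g : ∀ m, H m) (n : ℕ) {s t : ℝ} (hs : 0 ≤ s) (ht : 0 ≤ t) :
    bl n ((cutPath g n s)⁻¹ * cutPath g n t) ≤ |s - t| + 1 / 2 ^ n := by
  wlog hst : s ≤ t generalizing s t
  · have h1 := this ht hs (le_of_not_ge hst)
    rw [abs_sub_comm, ← (isLength_bl n).inv, mul_inv_rev, inv_inv]
    exact h1
  have h1 : bc {m | ((cutPath g n s)⁻¹ * cutPath g n t) m ≠ 1} n ≤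
      bc {m | s ≤ pos m ∧ pos m < t} n := by
    refine bc_mono ?_ n
    intro m hm
    change (cutPath g n s m)⁻¹ * cutPath g n t m ≠ 1 at hm
    unfold cutPath at hm
    by_contra h
    change ¬ (s ≤ pos m ∧ pos m < t) at h
    rw [not_and_or, not_le, not_lt] at h
    rcases h with h | h
    · rw [if_pos h, if_pos (lt_of_lt_of_le h hst), inv_mul_cancel] at hm
      exact hm rfl
    · rw [if_neg (not_lt.2 (hst.trans h)), if_neg (not_lt.2 h), inv_mul_cancel] at hm
      exact hm rfl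
  have h2 := card_between n hs hst
  have h3 : (bc {m | ((cutPath g n s)⁻¹ * cutPath g n t) m ≠ 1} n : ℝ) ≤
      bc {m | s ≤ pos m ∧ pos m < t} n := by exact_mod_cast h1
  unfold bl
  rw [div_le_iff₀ (by positivity), abs_of_nonpos (by linarith), add_mul,
    div_mul_cancel₀ _ (by positivity : (2 : ℝ) ^ n ≠ 0)]
  linarith

theorem isPath_cutPath (g : ∀ m, H m) :
    IsPath (G := fun _ => ∀ m, H m) (fun n => bl n) (cutPath g) where
  zero := by
    intro n
    funext m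
    rw [cutPath, if_neg (not_lt.2 (pos_nonneg m))]
    rfl
  cont := by
    intro ε hε
    refine ⟨ε / 2, by positivity, ?_⟩
    have h1 : Tendsto (fun n : ℕ => (1 : ℝ) / 2 ^ n) atTop (𝓝 0) := by
      simpa [one_div, inv_pow] using
        tendsto_pow_atTop_nhds_zero_of_lt_one (r := (2 : ℝ)⁻¹) (by norm_num) (by norm_num)
    have h2 : ∀ᶠ n : ℕ in atTop, (1 : ℝ) / 2 ^ n < ε / 2 :=
      h1.eventually_lt_const (by positivity)
    filter_upwards [h2] with n hn s hs t ht hst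
    have h3 := cutPath_close g n hs.1 ht.1
    linarith

/-- The part of `g` at the positions between `lo` and `up`. -/
noncomputable def arc (g : ∀ m, H m) (s : ℕ → ℝ) : ∀ m, H m := fun m =>
  if lo (s (blk m)) ≤ pos m ∧ pos m < up (s (blk m)) then g m else 1

/-- regrouping -/
def diagHom : (ℕ → ∀ m, H m) →* ∀ m, H m where
  toFun a := fun m => a (blk m) m
  map_one' := rfl
  map_mul' _ _ := rfl

theorem arc_eq₁ (g : ∀ m, H m) (s : ℕ → ℝ) :
    diagHom (fun n => loop₁ (G := fun _ => ∀ m, H m) (cutPath g) n (s n)) = arc g s := by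
  funext m
  change loop₁ (G := fun _ => ∀ m, H m) (cutPath g) (blk m) (s (blk m)) m = _
  have h1 := lo_le_up (s (blk m))
  simp only [loop₁, Pi.mul_apply, Pi.inv_apply, cutPath, arc]
  by_cases h2 : pos m < lo (s (blk m))
  · rw [if_pos (lt_of_lt_of_le h2 h1), if_pos h2, if_neg (by
      rintro ⟨h3, -⟩
      exact absurd h2 (not_lt.2 h3)), mul_inv_cancel]
  · rw [if_neg h2, inv_one, mul_one]
    by_cases h3 : pos m < up (s (blk m))
    · rw [if_pos h3, if_pos ⟨not_lt.1 h2, h3⟩]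
    · rw [if_neg h3, if_neg (by
        rintro ⟨-, h4⟩
        exact h3 h4)]

theorem arc_eq₂ (g : ∀ m, H m) (s : ℕ → ℝ) :
    diagHom (fun n => loop₂ (G := fun _ => ∀ m, H m) (cutPath g) n (s n)) = arc g s := by
  funext m
  change loop₂ (G := fun _ => ∀ m, H m) (cutPath g) (blk m) (s (blk m)) m = _
  have h1 := lo_le_up (s (blk m))
  simp only [loop₂, Pi.mul_apply, Pi.inv_apply, cutPath, arc]
  by_cases h2 : pos m < lo (s (blk m))
  · rw [if_pos (lt_of_lt_of_le h2 h1), if_pos h2, if_neg (by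
      rintro ⟨h3, -⟩
      exact absurd h2 (not_lt.2 h3)), inv_mul_cancel]
  · rw [if_neg h2, inv_one, one_mul]
    by_cases h3 : pos m < up (s (blk m))
    · rw [if_pos h3, if_pos ⟨not_lt.1 h2, h3⟩]
    · rw [if_neg h3, if_neg (by
        rintro ⟨-, h4⟩
        exact h3 h4)]

theorem null_diag {a : ℕ → ∀ m, H m}
    (h : Null (G := fun _ => ∀ m, H m) (fun n => bl n) a) :
    DensityZero {m | diagHom a m ≠ 1} := by
  refine densityZero_of_blocks ?_
  refine Tendsto.congr (fun n => ?_) h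
  change (bc {m | a n m ≠ 1} n : ℝ) / 2 ^ n = _
  congr 2
  unfold bc
  congr 1
  ext j
  refine and_congr_right fun hj => ?_
  change a n (2 ^ n - 1 + j) ≠ 1 ↔ a (blk (2 ^ n - 1 + j)) (2 ^ n - 1 + j) ≠ 1
  rw [blk_eq hj]

/-- The theorem for products modulo density zero. -/
theorem density_mem {B K : Subgroup (∀ m, H m)} (g : ∀ m, H m)
    (hB : ∀ a : ∀ m, H m, (∀ m, a m = 1 ∨ a m = g m) → a ∈ B)
    (hK : ∀ a ∈ B, DensityZero {m | a m ≠ 1} → a ∈ K)
    {κ : (∀ m, H m) → ℕ → Bool} (hκ : ∀ a ∈ B, ∀ b ∈ B, κ a = κ b ↔ a⁻¹ * b ∈ K) :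
    (∀ i, TuringInvariant {x | κ (arc g (TH774.TD.sq x)) i = true}) ∧
    ((∀ i, Determined {x | κ (arc g (TH774.TD.sq x)) i = true}) → g ∈ K) := by
  have hl : ∀ n, IsLength (bl (H := H) n) := isLength_bl
  have hp := isPath_cutPath g
  have hB' : ∀ t : ℕ → ℝ, (∀ n, t n ∈ Set.Icc (0 : ℝ) 1) →
      (fun n => cutPath g n (t n)) ∈ B.comap diagHom := by
    intro t _
    rw [Subgroup.mem_comap]
    refine hB _ fun m => ?_
    change (if pos m < t (blk m) then g m else 1) = 1 ∨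
      (if pos m < t (blk m) then g m else 1) = g m
    by_cases h : pos m < t (blk m)
    · right
      rw [if_pos h]
    · left
      rw [if_neg h]
  have hK' : ∀ a ∈ B.comap diagHom, Null (G := fun _ => ∀ m, H m) (fun n => bl n) a →
      a ∈ K.comap diagHom :=
    fun a hab ha => hK _ hab (null_diag ha)
  have hκ' : ∀ a ∈ B.comap diagHom, ∀ b ∈ B.comap diagHom,
      (fun c => κ (diagHom c)) a = (fun c => κ (diagHom c)) b ↔ a⁻¹ * b ∈ K.comap diagHom := by
    intro a ha b hb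
    rw [Subgroup.mem_comap, map_mul, map_inv]
    exact hκ _ ha _ hb
  refine ⟨fun i => ?_, fun hD => ?_⟩
  · have h1 := (isLoop_loop₁ (G := fun _ => ∀ m, H m) hl hp).invariant
      (loop₁_mem (G := fun _ => ∀ m, H m) hB') hK' hκ' i
    simp only [arc_eq₁] at h1
    exact h1
  · have h1 := path_mem (G := fun _ => ∀ m, H m) hl hp hB' hK' hκ'
      (by simp only [arc_eq₁]; exact hD) (by simp only [arc_eq₂]; exact hD)
    rw [Subgroup.mem_comap] at h1
    have e : diagHom (fun n => cutPath g n 1) = g := by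
      funext m
      change (if pos m < 1 then g m else 1) = g m
      rw [if_pos (pos_lt_one m)]
    rw [e] at h1
    exact h1

end Pool.Agent.U72.TD
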