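import Mathlib

set_option autoImplicit false

/-! # Two periodic Lipschitz functions -/

namespace Pool.Agent.U72.TD

/-- The distance to the nearest integer. -/
noncomputable def dz (x : ℝ) : ℝ := |x - round x|

theorem dz_nonneg (x : ℝ) : 0 ≤ dz x := abs_nonneg _

theorem dz_le_int (x : ℝ) (k : ℤ) : dz x ≤ |x - k| := round_le x k

theorem dz_sub_le (x y : ℝ) : dz x - dz y ≤ |x - y| := by
  have h1 := dz_le_int x (round y)
  have h2 : |x - round y| ≤ |x - y| + |y - round y| := by
    have h3 : x - round y = (x - y) + (y - round y) := by ring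
    rw [h3]
    exact abs_add_le _ _
  have h3 : dz y = |y - round y| := rfl
  linarith

theorem abs_dz_sub_le (x y : ℝ) : |dz x - dz y| ≤ |x - y| := by
  rw [abs_le]
  have h1 := dz_sub_le x y
  have h2 := dz_sub_le y x
  rw [abs_sub_comm] at h2
  constructor <;> linarith

theorem dz_add_int (x : ℝ) (k : ℤ) : dz (x + k) = dz x := by
  rw [dz, dz, round_add_intCast]
  congr 1
  push_cast
  ring

theorem dz_of_le_half {x : ℝ} (h0 : 0 ≤ x) (h : x ≤ 1 / 2) : dz x = x := by
  apply le_antisymm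
  · have h1 := dz_le_int x 0
    simpa [abs_of_nonneg h0] using h1
  · unfold dz
    rcases le_or_gt (round x) 0 with h1 | h1
    · have h2 : ((round x : ℤ) : ℝ) ≤ 0 := by exact_mod_cast h1
      have h3 := le_abs_self (x - round x)
      linarith
    · have h2 : (1 : ℝ) ≤ ((round x : ℤ) : ℝ) := by exact_mod_cast h1
      have h3 := neg_le_abs (x - round x)
      linarith

theorem dz_of_ge_half {x : ℝ} (h0 : 1 / 2 ≤ x) (h : x ≤ 1) : dz x = 1 - x := by
  apply le_antisymm
  · have h1 := dz_le_int x 1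
    rw [show |x - ((1 : ℤ) : ℝ)| = 1 - x by
      push_cast
      rw [abs_of_nonpos (by linarith)]
      ring] at h1
    exact h1
  · unfold dz
    rcases le_or_gt (round x) 0 with h1 | h1
    · have h2 : ((round x : ℤ) : ℝ) ≤ 0 := by exact_mod_cast h1
      have h3 := le_abs_self (x - round x)
      linarith
    · have h2 : (1 : ℝ) ≤ ((round x : ℤ) : ℝ) := by exact_mod_cast h1
      have h3 := neg_le_abs (x - round x)
      linarith

/-- The upper function: it rises on `[0, 1/4]`, is `1` on `[1/4, 3/4]` and falls on `[3/4, 1]`. -/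
noncomputable def up (s : ℝ) : ℝ := min 1 (4 * dz s)

/-- The lower function: it is `0` on `[0, 1/2]`, rises on `[1/2, 3/4]` and falls on `[3/4, 1]`. -/
noncomputable def lo (s : ℝ) : ℝ := max 0 (1 - 4 * dz (s + 1 / 4))

theorem up_mem (s : ℝ) : up s ∈ Set.Icc (0 : ℝ) 1 :=
  ⟨le_min (by norm_num) (by have := dz_nonneg s; linarith), min_le_left _ _⟩

theorem lo_mem (s : ℝ) : lo s ∈ Set.Icc (0 : ℝ) 1 :=
  ⟨le_max_left _ _, max_le (by norm_num) (by have := dz_nonneg (s + 1 / 4); linarith)⟩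

theorem up_add_int (s : ℝ) (k : ℤ) : up (s + k) = up s := by rw [up, up, dz_add_int]

theorem lo_add_int (s : ℝ) (k : ℤ) : lo (s + k) = lo s := by
  rw [lo, lo, show s + k + 1 / 4 = s + 1 / 4 + k by ring, dz_add_int]

theorem abs_up_sub_le (s t : ℝ) : |up s - up t| ≤ 4 * |s - t| := by
  have h1 := abs_min_sub_min_le_max 1 (4 * dz s) 1 (4 * dz t)
  rw [sub_self, abs_zero] at h1
  have h2 : |4 * dz s - 4 * dz t| ≤ 4 * |s - t| := by
    rw [← mul_sub, abs_mul, abs_of_pos (show (0 : ℝ) < 4 by norm_num)]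
    exact mul_le_mul_of_nonneg_left (abs_dz_sub_le s t) (by norm_num)
  exact h1.trans (max_le (by positivity) h2)

theorem abs_lo_sub_le (s t : ℝ) : |lo s - lo t| ≤ 4 * |s - t| := by
  have h1 := abs_max_sub_max_le_max 0 (1 - 4 * dz (s + 1 / 4)) 0 (1 - 4 * dz (t + 1 / 4))
  rw [sub_self, abs_zero] at h1
  have h2 : |1 - 4 * dz (s + 1 / 4) - (1 - 4 * dz (t + 1 / 4))| ≤ 4 * |s - t| := by
    rw [show 1 - 4 * dz (s + 1 / 4) - (1 - 4 * dz (t + 1 / 4)) =
      -(4 * (dz (s + 1 / 4) - dz (t + 1 / 4))) by ring, abs_neg, abs_mul,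
      abs_of_pos (show (0 : ℝ) < 4 by norm_num)]
    have h3 := abs_dz_sub_le (s + 1 / 4) (t + 1 / 4)
    rw [show s + 1 / 4 - (t + 1 / 4) = s - t by ring] at h3
    exact mul_le_mul_of_nonneg_left h3 (by norm_num)
  exact h1.trans (max_le (by positivity) h2)

/-- the values in the first period -/
theorem up_first {f : ℝ} (h0 : 0 ≤ f) (h : f ≤ 1 / 4) : up f = 4 * f := by
  rw [up, dz_of_le_half h0 (by linarith), min_eq_right (by linarith)]

theorem up_mid {f : ℝ} (h0 : 1 / 4 ≤ f) (h : f ≤ 3 / 4) : up f = 1 := by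
  rcases le_total f (1 / 2) with h1 | h1
  · rw [up, dz_of_le_half (by linarith) h1, min_eq_left (by linarith)]
  · rw [up, dz_of_ge_half h1 (by linarith), min_eq_left (by linarith)]

theorem up_last {f : ℝ} (h0 : 3 / 4 ≤ f) (h : f ≤ 1) : up f = 4 * (1 - f) := by
  rw [up, dz_of_ge_half (by linarith) h, min_eq_right (by linarith)]

theorem lo_first {f : ℝ} (h0 : 0 ≤ f) (h : f ≤ 1 / 2) : lo f = 0 := by
  rcases le_total f (1 / 4) with h1 | h1
  · rw [lo, dz_of_le_half (by linarith) (by linarith), max_eq_left (by linarith)]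
  · rw [lo, dz_of_ge_half (by linarith) (by linarith), max_eq_left (by linarith)]

theorem lo_mid {f : ℝ} (h0 : 1 / 2 ≤ f) (h : f ≤ 3 / 4) : lo f = 4 * f - 2 := by
  rw [lo, dz_of_ge_half (by linarith) (by linarith), max_eq_right (by linarith)]
  ring

theorem lo_last {f : ℝ} (h0 : 3 / 4 ≤ f) (h : f ≤ 1) : lo f = 4 * (1 - f) := by
  have h1 : dz (f + 1 / 4) = f - 3 / 4 := by
    rw [show f + 1 / 4 = (f - 3 / 4) + ((1 : ℤ) : ℝ) by push_cast; ring, dz_add_int]
    exact dz_of_le_half (by linarith) (by linarith)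
  rw [lo, h1, max_eq_right (by linarith)]
  ring

/-- reduction to the first period -/
theorem exists_frac (s : ℝ) : ∃ (f : ℝ) (k : ℤ), s = f + k ∧ 0 ≤ f ∧ f ≤ 1 :=
  ⟨Int.fract s, ⌊s⌋, (Int.fract_add_floor s).symm, Int.fract_nonneg s, (Int.fract_lt_one s).le⟩

theorem lo_le_up (s : ℝ) : lo s ≤ up s := by
  obtain ⟨f, k, rfl, h0, h1⟩ := exists_frac s
  rw [up_add_int, lo_add_int]
  rcases le_total f (1 / 2) with h2 | h2
  · rw [lo_first h0 h2]
    exact (up_mem f).1
  · rcases le_total f (3 / 4) with h3 | h3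
    · rw [up_mid (by linarith) h3]
      exact (lo_mem f).2
    · rw [lo_last h3 h1, up_last h3 h1]

theorem up_int (k : ℤ) : up (k : ℝ) = 0 := by
  have h := up_add_int 0 k
  rw [zero_add] at h
  rw [h, up_first le_rfl (by norm_num), mul_zero]

theorem lo_int (k : ℤ) : lo (k : ℝ) = 0 := by
  have h := lo_add_int 0 k
  rw [zero_add] at h
  rw [h, lo_first le_rfl (by norm_num)]

/-- Half a period earlier. -/
theorem phases (s : ℝ) :
    (lo s = 0 ∧ up (s - 1 / 2) = 1 ∧ lo (s - 1 / 2) = up s) ∨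
    (up s = 1 ∧ lo s = 0 ∧ up (s - 1 / 2) = lo (s - 1 / 2)) ∨
    (up s = 1 ∧ lo (s - 1 / 2) = 0 ∧ up (s - 1 / 2) = lo s) ∨
    (up s = lo s ∧ up (s - 1 / 2) = 1 ∧ lo (s - 1 / 2) = 0) := by
  obtain ⟨f, k, rfl, h0, h1⟩ := exists_frac s
  have e1 : f + k - 1 / 2 = (f + 1 / 2) + ((k - 1 : ℤ) : ℝ) := by push_cast; ring
  have e2 : f + k - 1 / 2 = (f - 1 / 2) + ((k : ℤ) : ℝ) := by ring
  rcases le_total f (1 / 4) with h2 | h2
  · left
    rw [e1, up_add_int, lo_add_int, lo_add_int, up_add_int]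
    exact ⟨lo_first h0 (by linarith), up_mid (by linarith) (by linarith), by
      rw [lo_mid (by linarith) (by linarith), up_first h0 h2]; ring⟩
  · rcases le_total f (1 / 2) with h3 | h3
    · right; left
      rw [e1, up_add_int, lo_add_int, lo_add_int, up_add_int]
      exact ⟨up_mid h2 (by linarith), lo_first h0 h3, by
        rw [up_last (by linarith) (by linarith), lo_last (by linarith) (by linarith)]⟩
    · rcases le_total f (3 / 4) with h4 | h4
      · right; right; left
        rw [e2, up_add_int, lo_add_int, lo_add_int, up_add_int]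
        exact ⟨up_mid h2 h4, lo_first (by linarith) (by linarith), by
          rw [up_first (by linarith) (by linarith), lo_mid h3 h4]; ring⟩
      · right; right; right
        rw [e2, up_add_int, lo_add_int, lo_add_int, up_add_int]
        exact ⟨by rw [up_last h4 h1, lo_last h4 h1], up_mid (by linarith) (by linarith),
          lo_first (by linarith) (by linarith)⟩

end Pool.Agent.U72.TD
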