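import Pool.Agent.TH774.TD.Add
import Pool.Agent.W885.TD.Cover
import Pool.Agent.U72.TD.Saw

set_option autoImplicit false

/-! # Loops in products of groups with bi-invariant lengths, and Turing determinacy -/

namespace Pool.Agent.U72.TD

open Filter Topology
open Pool.Agent.H685R3 Pool.Agent.Helper227

universe u

/-- A bi-invariant length function on a group (values in the nonnegative reals, the length of a
nontrivial element may be zero). -/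
structure IsLength {G : Type u} [Group G] (ℓ : G → ℝ) : Prop where
  one : ℓ 1 = 0
  nonneg : ∀ a, 0 ≤ ℓ a
  inv : ∀ a, ℓ a⁻¹ = ℓ a
  mul : ∀ a b, ℓ (a * b) ≤ ℓ a + ℓ b
  conj : ∀ a b, ℓ (b * a * b⁻¹) = ℓ a

theorem IsLength.comm {G : Type u} [Group G] {ℓ : G → ℝ} (h : IsLength ℓ) (a b : G) :
    ℓ (a * b) = ℓ (b * a) := by
  have h1 := h.conj (a * b) b
  rw [← h1]
  congr 1
  group

variable {G : ℕ → Type u} [∀ n, Group (G n)]

/-- The length of the `n`-th member tends to zero. -/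
def Null (ℓ : ∀ n, G n → ℝ) (a : ∀ n, G n) : Prop := Tendsto (fun n => ℓ n (a n)) atTop (𝓝 0)

/-- Periodic asymptotically continuous loops. -/
structure IsLoop (ℓ : ∀ n, G n → ℝ) (L : ∀ n, ℝ → G n) : Prop where
  zero : ∀ n, L n 0 = 1
  per : ∀ n s (k : ℤ), L n (s + k) = L n s
  close : ∀ s t : ℕ → ℝ, Tendsto (fun n => s n - t n) atTop (𝓝 0) →
    Null ℓ fun n => (L n (s n))⁻¹ * L n (t n)

theorem dl_split (s : ℝ) : ∃ (i j : ℤ),
    ((s + TH774.TD.dl s) / 2 = i ∧ (s - TH774.TD.dl s) / 2 = s + j) ∨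
    ((s + TH774.TD.dl s) / 2 = s + i ∧ (s - TH774.TD.dl s) / 2 = j) := by
  unfold TH774.TD.dl
  rcases le_total 0 (s - 2 * round (s / 2)) with h | h
  · rw [abs_of_nonneg h]
    refine ⟨-round (s / 2), round (s / 2), Or.inr ⟨?_, ?_⟩⟩ <;> push_cast <;> ring
  · rw [abs_of_nonpos h]
    refine ⟨round (s / 2), -round (s / 2), Or.inl ⟨?_, ?_⟩⟩ <;> push_cast <;> ring

theorem IsLoop.int {ℓ : ∀ n, G n → ℝ} {L : ∀ n, ℝ → G n} (h : IsLoop ℓ L) (n : ℕ) (k : ℤ) :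
    L n k = 1 := by
  have h1 := h.per n 0 k
  rw [zero_add, h.zero] at h1
  exact h1

theorem IsLoop.split {ℓ : ∀ n, G n → ℝ} {L : ∀ n, ℝ → G n} (h : IsLoop ℓ L) (n : ℕ) (s : ℝ) :
    L n s = L n ((s + TH774.TD.dl s) / 2) * L n ((s - TH774.TD.dl s) / 2) := by
  obtain ⟨i, j, ⟨h1, h2⟩ | ⟨h1, h2⟩⟩ := dl_split s
  · rw [h1, h2, h.int, h.per, one_mul]
  · rw [h1, h2, h.int, h.per, mul_one]

/-- the values of the invariant along a loop do not change within a degree -/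
theorem IsLoop.invariant {ℓ : ∀ n, G n → ℝ} {L : ∀ n, ℝ → G n} (h : IsLoop ℓ L)
    {B K : Subgroup (∀ n, G n)} (hB : ∀ t : ℕ → ℝ, (fun n => L n (t n)) ∈ B)
    (hK : ∀ a ∈ B, Null ℓ a → a ∈ K) {κ : (∀ n, G n) → ℕ → Bool}
    (hκ : ∀ a ∈ B, ∀ b ∈ B, κ a = κ b ↔ a⁻¹ * b ∈ K) (i : ℕ) :
    TuringInvariant {x | κ (fun n => L n (TH774.TD.sq x n)) i = true} := by
  intro x y h1 h2 hx
  have h3 : κ (fun n => L n (TH774.TD.sq x n)) = κ (fun n => L n (TH774.TD.sq y n)) :=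
    (hκ _ (hB _) _ (hB _)).2 (hK _ (B.mul_mem (B.inv_mem (hB _)) (hB _))
      (h.close _ _ (TH774.TD.sq_close h1 h2)))
  change κ _ i = true at hx
  change κ _ i = true
  rw [← h3]
  exact hx

/-- If these sets are determined, the loop is in `K` on a cone. -/
theorem IsLoop.mem {ℓ : ∀ n, G n → ℝ} {L : ∀ n, ℝ → G n} (h : IsLoop ℓ L)
    {B K : Subgroup (∀ n, G n)} (hB : ∀ t : ℕ → ℝ, (fun n => L n (t n)) ∈ B)
    (hK : ∀ a ∈ B, Null ℓ a → a ∈ K) {κ : (∀ n, G n) → ℕ → Bool}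
    (hκ : ∀ a ∈ B, ∀ b ∈ B, κ a = κ b ↔ a⁻¹ * b ∈ K)
    (hD : ∀ i, Determined {x | κ (fun n => L n (TH774.TD.sq x n)) i = true}) :
    ∃ z, ∀ y, TLe z y → (fun n => L n (TH774.TD.sq y n)) ∈ K := by
  obtain ⟨z, hz⟩ := TH774.TD.const_on_cone
    (S := fun i => {x | κ (fun n => L n (TH774.TD.sq x n)) i = true})
    (fun i => h.invariant hB hK hκ i) hD
  have hconst : ∀ y, TLe z y →
      κ (fun n => L n (TH774.TD.sq y n)) = κ (fun n => L n (TH774.TD.sq z n)) := by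
    intro y hy
    refine funext fun i => ?_
    rcases hz i with h | h
    · have h1 : κ (fun n => L n (TH774.TD.sq y n)) i = true := h y hy
      have h2 : κ (fun n => L n (TH774.TD.sq z n)) i = true := h z (TLe.refl z)
      rw [h1, h2]
    · have h1 : ¬ κ (fun n => L n (TH774.TD.sq y n)) i = true := h y hy
      have h2 : ¬ κ (fun n => L n (TH774.TD.sq z n)) i = true := h z (TLe.refl z)
      rw [Bool.not_eq_true] at h1 h2
      rw [h1, h2]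
  have hdiff : ∀ y y', TLe z y → TLe z y' →
      (fun n => L n (TH774.TD.sq y n))⁻¹ * (fun n => L n (TH774.TD.sq y' n)) ∈ K := by
    intro y y' hy hy'
    refine (hκ _ (hB _) _ (hB _)).1 ?_
    rw [hconst y hy, hconst y' hy']
  obtain ⟨s, hs0, hs, hw⟩ := TH774.TD.walk_sq z
  obtain ⟨y₁, h1, c1⟩ := hw _ TH774.TD.nice_id
  obtain ⟨y₂, h2, c2⟩ := hw _ TH774.TD.nice_two
  obtain ⟨y₃, h3, c3⟩ := hw _ TH774.TD.nice_three
  set A : ∀ n, G n := fun n => L n (s n) with hA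
  set B' : ∀ n, G n := fun n => L n ((s n + TH774.TD.dl (s n)) / 2) with hB'
  set C : ∀ n, G n := fun n => L n ((s n - TH774.TD.dl (s n)) / 2) with hC
  have e : A = B' * C := by
    funext n
    exact h.split n (s n)
  set a₁ : ∀ n, G n := fun n => L n (TH774.TD.sq y₁ n) with ha1
  set a₂ : ∀ n, G n := fun n => L n (TH774.TD.sq y₂ n) with ha2
  set a₃ : ∀ n, G n := fun n => L n (TH774.TD.sq y₃ n) with ha3
  have k1 : a₁⁻¹ * A ∈ K := hK _ (B.mul_mem (B.inv_mem (hB _)) (hB _)) (h.close _ _ c1)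
  have k2 : a₂⁻¹ * B' ∈ K := hK _ (B.mul_mem (B.inv_mem (hB _)) (hB _)) (h.close _ _ c2)
  have k3 : a₃⁻¹ * C ∈ K := hK _ (B.mul_mem (B.inv_mem (hB _)) (hB _)) (h.close _ _ c3)
  have k4 : a₂⁻¹ * a₁ ∈ K := hdiff _ _ h2 h1
  have k5 : C ∈ K := by
    have e1 : C = (a₂⁻¹ * B')⁻¹ * (a₂⁻¹ * a₁) * (a₁⁻¹ * A) := by
      rw [e]
      group
    rw [e1]
    exact K.mul_mem (K.mul_mem (K.inv_mem k2) k4) k1
  have k6 : a₃ ∈ K := by
    have e1 : a₃ = C * (a₃⁻¹ * C)⁻¹ := by group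
    rw [e1]
    exact K.mul_mem k5 (K.inv_mem k3)
  refine ⟨z, fun y hy => ?_⟩
  have k7 := hdiff y₃ y h3 hy
  have e2 : (fun n => L n (TH774.TD.sq y n)) = a₃ * (a₃⁻¹ * fun n => L n (TH774.TD.sq y n)) := by
    rw [mul_inv_cancel_left]
  rw [e2]
  exact K.mul_mem k6 k7

/-- Asymptotically equicontinuous paths, starting at the identity. -/
structure IsPath (ℓ : ∀ n, G n → ℝ) (p : ∀ n, ℝ → G n) : Prop where
  zero : ∀ n, p n 0 = 1
  cont : ∀ ε > 0, ∃ δ > 0, ∀ᶠ n in atTop, ∀ s ∈ Set.Icc (0 : ℝ) 1, ∀ t ∈ Set.Icc (0 : ℝ) 1,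
    |s - t| ≤ δ → ℓ n ((p n s)⁻¹ * p n t) ≤ ε

/-- The first loop. -/
noncomputable def loop₁ (p : ∀ n, ℝ → G n) (n : ℕ) (s : ℝ) : G n := p n (up s) * (p n (lo s))⁻¹

/-- The second loop. -/
noncomputable def loop₂ (p : ∀ n, ℝ → G n) (n : ℕ) (s : ℝ) : G n := (p n (lo s))⁻¹ * p n (up s)

theorem IsPath.null {ℓ : ∀ n, G n → ℝ} {p : ∀ n, ℝ → G n} (hl : ∀ n, IsLength (ℓ n))
    (hp : IsPath ℓ p) {s t : ℕ → ℝ} (hs : ∀ n, s n ∈ Set.Icc (0 : ℝ) 1)
    (ht : ∀ n, t n ∈ Set.Icc (0 : ℝ) 1) (h : Tendsto (fun n => s n - t n) atTop (𝓝 0)) :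
    Null ℓ fun n => (p n (s n))⁻¹ * p n (t n) := by
  unfold Null
  rw [Metric.tendsto_atTop]
  intro ε hε
  obtain ⟨δ, hδ, hc⟩ := hp.cont (ε / 2) (by positivity)
  have h1 : ∀ᶠ n in atTop, |s n - t n| ≤ δ := by
    have h2 := (Metric.tendsto_atTop.1 h) δ hδ
    obtain ⟨N, hN⟩ := h2
    filter_upwards [eventually_ge_atTop N] with n hn
    have h3 := hN n hn
    rw [Real.dist_eq, sub_zero] at h3
    exact h3.le
  obtain ⟨N, hN⟩ := eventually_atTop.1 (hc.and h1)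
  refine ⟨N, fun n hn => ?_⟩
  obtain ⟨h3, h4⟩ := hN n hn
  rw [Real.dist_eq, sub_zero, abs_of_nonneg ((hl n).nonneg _)]
  linarith [h3 (s n) (hs n) (t n) (ht n) h4]

theorem tendsto_lip {f : ℝ → ℝ} (hf : ∀ s t, |f s - f t| ≤ 4 * |s - t|) {s t : ℕ → ℝ}
    (h : Tendsto (fun n => s n - t n) atTop (𝓝 0)) :
    Tendsto (fun n => f (s n) - f (t n)) atTop (𝓝 0) := by
  have h1 : Tendsto (fun n => 4 * |s n - t n|) atTop (𝓝 0) := by
    simpa using (h.abs).const_mul 4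
  exact squeeze_zero_norm (fun n => hf _ _) h1

theorem null_add {ℓ : ∀ n, G n → ℝ} (hl : ∀ n, IsLength (ℓ n)) {a b c : ∀ n, G n}
    (ha : Null ℓ a) (hb : Null ℓ b) (h : ∀ n, ℓ n (c n) ≤ ℓ n (a n) + ℓ n (b n)) : Null ℓ c := by
  have h1 : Tendsto (fun n => ℓ n (a n) + ℓ n (b n)) atTop (𝓝 0) := by
    simpa using Tendsto.add ha hb
  exact squeeze_zero (fun n => (hl n).nonneg _) h h1

theorem isLoop_loop₁ {ℓ : ∀ n, G n → ℝ} (hl : ∀ n, IsLength (ℓ n)) {p : ∀ n, ℝ → G n}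
    (hp : IsPath ℓ p) : IsLoop ℓ (loop₁ p) where
  zero := by
    intro n
    have h1 := up_int 0
    have h2 := lo_int 0
    simp only [Int.cast_zero] at h1 h2
    rw [loop₁, h1, h2, mul_inv_cancel]
  per := by
    intro n s k
    rw [loop₁, loop₁, up_add_int, lo_add_int]
  close := by
    intro s t h
    have h1 := hp.null hl (fun n => up_mem (s n)) (fun n => up_mem (t n))
      (tendsto_lip abs_up_sub_le h)
    have h2 := hp.null hl (fun n => lo_mem (s n)) (fun n => lo_mem (t n))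
      (tendsto_lip abs_lo_sub_le h)
    refine null_add hl h1 h2 fun n => ?_
    set A := p n (lo (s n))
    set B := p n (up (s n))
    set C := p n (up (t n))
    set D := p n (lo (t n))
    have e : (loop₁ p n (s n))⁻¹ * loop₁ p n (t n) = (A * (B⁻¹ * C) * A⁻¹) * (A * D⁻¹) := by
      change (B * A⁻¹)⁻¹ * (C * D⁻¹) = _
      group
    have e2 : ℓ n (A * D⁻¹) = ℓ n (A⁻¹ * D) := by
      rw [(hl n).comm, ← (hl n).inv]
      congr 1
      group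
    rw [e]
    refine ((hl n).mul _ _).trans ?_
    rw [(hl n).conj, e2]

theorem isLoop_loop₂ {ℓ : ∀ n, G n → ℝ} (hl : ∀ n, IsLength (ℓ n)) {p : ∀ n, ℝ → G n}
    (hp : IsPath ℓ p) : IsLoop ℓ (loop₂ p) where
  zero := by
    intro n
    have h1 := up_int 0
    have h2 := lo_int 0
    simp only [Int.cast_zero] at h1 h2
    rw [loop₂, h1, h2, inv_mul_cancel]
  per := by
    intro n s k
    rw [loop₂, loop₂, up_add_int, lo_add_int]
  close := by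
    intro s t h
    have h1 := hp.null hl (fun n => up_mem (s n)) (fun n => up_mem (t n))
      (tendsto_lip abs_up_sub_le h)
    have h2 := hp.null hl (fun n => lo_mem (s n)) (fun n => lo_mem (t n))
      (tendsto_lip abs_lo_sub_le h)
    refine null_add hl h2 h1 fun n => ?_
    set A := p n (lo (s n))
    set B := p n (up (s n))
    set C := p n (up (t n))
    set D := p n (lo (t n))
    have e : (loop₂ p n (s n))⁻¹ * loop₂ p n (t n) = (B⁻¹ * (A * D⁻¹) * B⁻¹⁻¹) * (B⁻¹ * C) := by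
      change (A⁻¹ * B)⁻¹ * (D⁻¹ * C) = _
      group
    have e2 : ℓ n (A * D⁻¹) = ℓ n (A⁻¹ * D) := by
      rw [(hl n).comm, ← (hl n).inv]
      congr 1
      group
    rw [e]
    refine ((hl n).mul _ _).trans ?_
    rw [(hl n).conj, e2]

theorem loop_mul {p : ∀ n, ℝ → G n} (h0 : ∀ n, p n 0 = 1) (n : ℕ) (s : ℝ) :
    loop₁ p n s * loop₂ p n (s - 1 / 2) = p n 1 := by
  unfold loop₁ loop₂
  rcases phases s with ⟨h1, h2, h3⟩ | ⟨h1, h2, h3⟩ | ⟨h1, h2, h3⟩ | ⟨h1, h2, h3⟩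
  · rw [h1, h2, h3, h0]
    group
  · rw [h1, h2, h3, h0]
    group
  · rw [h1, h2, h3, h0]
    group
  · rw [h1, h2, h3, h0]
    group

theorem null_of_eventually {ℓ : ∀ n, G n → ℝ} (hl : ∀ n, IsLength (ℓ n)) {a : ∀ n, G n}
    (h : ∀ᶠ n in atTop, a n = 1) : Null ℓ a := by
  refine (tendsto_const_nhds (x := (0 : ℝ))).congr' ?_
  filter_upwards [h] with n hn
  rw [hn, (hl n).one]

theorem loop₁_mem {p : ∀ n, ℝ → G n} {B : Subgroup (∀ n, G n)}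
    (hB : ∀ t : ℕ → ℝ, (∀ n, t n ∈ Set.Icc (0 : ℝ) 1) → (fun n => p n (t n)) ∈ B) (t : ℕ → ℝ) :
    (fun n => loop₁ p n (t n)) ∈ B :=
  B.mul_mem (hB _ fun n => up_mem (t n)) (B.inv_mem (hB _ fun n => lo_mem (t n)))

theorem loop₂_mem {p : ∀ n, ℝ → G n} {B : Subgroup (∀ n, G n)}
    (hB : ∀ t : ℕ → ℝ, (∀ n, t n ∈ Set.Icc (0 : ℝ) 1) → (fun n => p n (t n)) ∈ B) (t : ℕ → ℝ) :
    (fun n => loop₂ p n (t n)) ∈ B :=
  B.mul_mem (B.inv_mem (hB _ fun n => lo_mem (t n))) (hB _ fun n => up_mem (t n))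

/-- The main theorem for paths. -/
theorem path_mem {ℓ : ∀ n, G n → ℝ} (hl : ∀ n, IsLength (ℓ n)) {p : ∀ n, ℝ → G n}
    (hp : IsPath ℓ p) {B K : Subgroup (∀ n, G n)}
    (hB : ∀ t : ℕ → ℝ, (∀ n, t n ∈ Set.Icc (0 : ℝ) 1) → (fun n => p n (t n)) ∈ B)
    (hK : ∀ a ∈ B, Null ℓ a → a ∈ K)
    {κ : (∀ n, G n) → ℕ → Bool} (hκ : ∀ a ∈ B, ∀ b ∈ B, κ a = κ b ↔ a⁻¹ * b ∈ K)
    (hD : ∀ i, Determined {x | κ (fun n => loop₁ p n (TH774.TD.sq x n)) i = true})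
    (hD' : ∀ i, Determined {x | κ (fun n => loop₂ p n (TH774.TD.sq x n)) i = true}) :
    (fun n => p n 1) ∈ K := by
  have l1 := isLoop_loop₁ hl hp
  have l2 := isLoop_loop₂ hl hp
  have b1 := loop₁_mem hB
  have b2 := loop₂_mem hB
  obtain ⟨z₁, hz₁⟩ := l1.mem b1 hK hκ hD
  obtain ⟨z₂, hz₂⟩ := l2.mem b2 hK hκ hD'
  obtain ⟨z, hz⟩ := Pool.Agent.W885.TD.join_cone fun n => if n = 0 then z₁ else z₂
  have e1 : TLe z₁ z := by simpa using hz 0
  have e2 : TLe z₂ z := by simpa using hz 1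
  obtain ⟨s, hs0, hs, hw⟩ := TH774.TD.walk_sq z
  obtain ⟨y₁, h1, c1⟩ := hw _ TH774.TD.nice_id
  obtain ⟨y₂, h2, c2⟩ := hw _ (TH774.TD.nice_shift (c := 1 / 2) (by norm_num))
  have k1 : (fun n => loop₁ p n (TH774.TD.sq y₁ n)) ∈ K := hz₁ _ (TLe.trans e1 h1)
  have k2 : (fun n => loop₂ p n (TH774.TD.sq y₂ n)) ∈ K := hz₂ _ (TLe.trans e2 h2)
  have k3 := hK _ (B.mul_mem (B.inv_mem (b1 _)) (b1 _)) (l1.close _ _ c1)
  have k4 := hK _ (B.mul_mem (B.inv_mem (b2 _)) (b2 _)) (l2.close _ _ c2)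
  have k5 : (fun n => (loop₂ p n (max (s n - 1 / 2) 0))⁻¹ * loop₂ p n (s n - 1 / 2)) ∈ K := by
    refine hK _ (B.mul_mem (B.inv_mem (b2 fun n => max (s n - 1 / 2) 0))
      (b2 fun n => s n - 1 / 2)) (null_of_eventually hl ?_)
    filter_upwards [hs.eventually_ge_atTop (1 / 2)] with n hn
    rw [max_eq_left (by linarith), inv_mul_cancel]
  have e : (fun n => p n 1) = (fun n => loop₁ p n (TH774.TD.sq y₁ n)) *
      (fun n => (loop₁ p n (TH774.TD.sq y₁ n))⁻¹ * loop₁ p n (s n)) *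
      ((fun n => loop₂ p n (TH774.TD.sq y₂ n)) *
      (fun n => (loop₂ p n (TH774.TD.sq y₂ n))⁻¹ * loop₂ p n (max (s n - 1 / 2) 0)) *
      (fun n => (loop₂ p n (max (s n - 1 / 2) 0))⁻¹ * loop₂ p n (s n - 1 / 2))) := by
    funext n
    simp only [Pi.mul_apply]
    rw [← loop_mul hp.zero n (s n)]
    group
  rw [e]
  exact K.mul_mem (K.mul_mem k1 k3) (K.mul_mem (K.mul_mem k2 k4) k5)

end Pool.Agent.U72.TD
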