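import Pool.Agent.U72.TD.Loop

set_option autoImplicit false

/-! # Products of short elements, and symmetric groups -/

namespace Pool.Agent.U72.TD

open Filter Topology

universe u

theorem length_prod_le {G : Type u} [Group G] {ℓ : G → ℝ} (h : IsLength ℓ) {c : ℝ} (l : List G)
    (hl : ∀ a ∈ l, ℓ a ≤ c) : ℓ l.prod ≤ l.length * c := by
  induction l with
  | nil => simp [h.one]
  | cons a l ih =>
    rw [List.prod_cons, List.length_cons]
    have h1 := h.mul a l.prod
    have h2 := hl a (by simp)
    have h3 := ih fun b hb => hl b (by simp [hb])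
    push_cast
    linarith

variable {G : ℕ → Type u} [∀ n, Group (G n)]

/-- The path through the partial products of a list. -/
noncomputable def listPath (D : ℕ → ℕ) (l : ∀ n, List (G n)) (n : ℕ) (t : ℝ) : G n :=
  ((l n).take ⌊t * D n⌋₊).prod

theorem take_diff {M : Type u} [Group M] (l : List M) {a b : ℕ} (h : a ≤ b) :
    ((l.take a).prod)⁻¹ * (l.take b).prod = ((l.drop a).take (b - a)).prod := by
  have h1 : l.take b = l.take a ++ (l.drop a).take (b - a) := by
    rw [← List.take_add]
    congr 1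
    omega
  rw [h1, List.prod_append, inv_mul_cancel_left]

theorem listPath_close {ℓ : ∀ n, G n → ℝ} (hl : ∀ n, IsLength (ℓ n)) {D : ℕ → ℕ}
    {l : ∀ n, List (G n)} {C : ℝ} (hC : 0 ≤ C) (hs : ∀ n, ∀ a ∈ l n, ℓ n a ≤ C / D n) (n : ℕ)
    (hD : 0 < D n) {s t : ℝ} (hs0 : 0 ≤ s) (ht0 : 0 ≤ t) :
    ℓ n ((listPath D l n s)⁻¹ * listPath D l n t) ≤ |s - t| * C + C / D n := by
  wlog hst : s ≤ t generalizing s t
  · have h1 := this ht0 hs0 (le_of_not_ge hst)
    rw [abs_sub_comm, ← (hl n).inv, mul_inv_rev, inv_inv]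
    exact h1
  have hD' : (0 : ℝ) < D n := by exact_mod_cast hD
  have hab : ⌊s * D n⌋₊ ≤ ⌊t * D n⌋₊ :=
    Nat.floor_le_floor (mul_le_mul_of_nonneg_right hst hD'.le)
  unfold listPath
  rw [take_diff _ hab]
  have h1 := length_prod_le (hl n) (c := C / D n)
    (((l n).drop ⌊s * D n⌋₊).take (⌊t * D n⌋₊ - ⌊s * D n⌋₊)) fun a ha =>
      hs n a (List.mem_of_mem_drop (List.mem_of_mem_take ha))
  have h2 : (((((l n).drop ⌊s * D n⌋₊).take (⌊t * D n⌋₊ - ⌊s * D n⌋₊)).length : ℕ) : ℝ) ≤
      (t - s) * D n + 1 := by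
    have e1 : (((l n).drop ⌊s * D n⌋₊).take (⌊t * D n⌋₊ - ⌊s * D n⌋₊)).length ≤
        ⌊t * D n⌋₊ - ⌊s * D n⌋₊ := by
      rw [List.length_take]
      exact min_le_left _ _
    have e2 : (((((l n).drop ⌊s * D n⌋₊).take (⌊t * D n⌋₊ - ⌊s * D n⌋₊)).length : ℕ) : ℝ) ≤
        (⌊t * D n⌋₊ : ℝ) - ⌊s * D n⌋₊ := by
      rw [← Nat.cast_sub hab]
      exact_mod_cast e1
    have e3 := Nat.floor_le (mul_nonneg ht0 hD'.le)
    have e4 := Nat.lt_floor_add_one (s * (D n : ℝ))
    linarith
  have h3 : (0 : ℝ) ≤ C / D n := by positivity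
  refine h1.trans ((mul_le_mul_of_nonneg_right h2 h3).trans ?_)
  rw [abs_of_nonpos (by linarith)]
  have e : ((t - s) * D n + 1) * (C / D n) = (t - s) * C + C / D n := by
    field_simp
  rw [e]
  linarith

theorem isPath_listPath {ℓ : ∀ n, G n → ℝ} (hl : ∀ n, IsLength (ℓ n)) {D : ℕ → ℕ}
    (hD : Tendsto D atTop atTop) {l : ∀ n, List (G n)} {C : ℝ} (hC : 0 ≤ C)
    (hs : ∀ n, ∀ a ∈ l n, ℓ n a ≤ C / D n) : IsPath ℓ (listPath D l) where
  zero := by
    intro n
    simp [listPath]
  cont := by
    intro ε hε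
    refine ⟨ε / (2 * (C + 1)), by positivity, ?_⟩
    have h1 : Tendsto (fun n => C / (D n : ℝ)) atTop (𝓝 0) :=
      tendsto_const_nhds.div_atTop (tendsto_natCast_atTop_atTop.comp hD)
    have h2 : ∀ᶠ n in atTop, C / (D n : ℝ) < ε / 2 := h1.eventually_lt_const (by positivity)
    filter_upwards [h2, hD.eventually_ge_atTop 1] with n hn hn1 s hs' t ht hst
    have h3 := listPath_close hl hC hs n (by omega) hs'.1 ht.1
    have h4 : |s - t| * C ≤ ε / 2 := by
      have e1 : |s - t| * C ≤ ε / (2 * (C + 1)) * C := mul_le_mul_of_nonneg_right hst hC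
      have e2 : ε / (2 * (C + 1)) * C ≤ ε / 2 := by
        rw [div_mul_eq_mul_div, div_le_div_iff₀ (by positivity) (by positivity)]
        nlinarith
      linarith
    linarith

theorem listPath_one {D : ℕ → ℕ} {l : ∀ n, List (G n)} (h : ∀ n, (l n).length ≤ D n) (n : ℕ) :
    listPath D l n 1 = (l n).prod := by
  rw [listPath, one_mul, Nat.floor_natCast, List.take_of_length_le (h n)]

/-- The normalized Hamming length of a permutation. -/
noncomputable def hammingLength (k : ℕ) (σ : Equiv.Perm (Fin k)) : ℝ := (σ.support.card : ℝ) / k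

theorem isLength_hamming (k : ℕ) : IsLength (hammingLength k) where
  one := by simp [hammingLength]
  nonneg := fun σ => by unfold hammingLength; positivity
  inv := fun σ => by simp [hammingLength]
  mul := by
    intro a b
    unfold hammingLength
    rw [← add_div]
    refine div_le_div_of_nonneg_right ?_ (by positivity)
    have h1 : (a * b).support.card ≤ a.support.card + b.support.card :=
      (Finset.card_le_card (Equiv.Perm.support_mul_le a b)).trans (Finset.card_union_le _ _)
    exact_mod_cast h1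
  conj := by
    intro a b
    unfold hammingLength
    rw [Equiv.Perm.card_support_conj]

theorem exists_swaps {k : ℕ} (σ : Equiv.Perm (Fin k)) : ∃ l : List (Equiv.Perm (Fin k)),
    l.prod = σ ∧ l.length ≤ σ.support.card ∧ ∀ τ ∈ l, τ.support.card ≤ 2 := by
  induction hn : σ.support.card using Nat.strong_induction_on generalizing σ with
  | _ n ih =>
    by_cases h : σ = 1
    · exact ⟨[], by simp [h], by simp, by simp⟩
    · obtain ⟨x, hx⟩ : ∃ x, σ x ≠ x := by
        by_contra h2
        push Not at h2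
        exact h (Equiv.ext h2)
      have h1 := Equiv.Perm.card_support_swap_mul hx
      obtain ⟨l, h2, h3, h4⟩ := ih _ (hn ▸ h1) (Equiv.swap x (σ x) * σ) rfl
      refine ⟨Equiv.swap x (σ x) :: l, ?_, ?_, ?_⟩
      · rw [List.prod_cons, h2, Equiv.swap_mul_self_mul]
      · rw [List.length_cons]
        omega
      · intro τ hτ
        rw [List.mem_cons] at hτ
        rcases hτ with rfl | hτ
        · rw [Equiv.Perm.card_support_swap (Ne.symm hx)]
        · exact h4 τ hτ

/-- Every sequence of permutations is at the end of a path. -/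
theorem exists_path_perm {k : ℕ → ℕ} (hk : Tendsto k atTop atTop)
    (g : ∀ n, Equiv.Perm (Fin (k n))) : ∃ l : ∀ n, List (Equiv.Perm (Fin (k n))),
    IsPath (fun n => hammingLength (k n)) (listPath k l) ∧ ∀ n, listPath k l n 1 = g n := by
  choose l h1 h2 h3 using fun n => exists_swaps (g n)
  refine ⟨l, isPath_listPath (fun n => isLength_hamming (k n)) hk (C := 2) (by norm_num) ?_,
    fun n => ?_⟩
  · intro n a ha
    unfold hammingLength
    refine div_le_div_of_nonneg_right ?_ (by positivity)
    exact_mod_cast h3 n a ha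
  · rw [listPath_one, h1]
    intro m
    refine (h2 m).trans ?_
    have := Finset.card_le_univ (g m).support
    simpa using this

end Pool.Agent.U72.TD
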