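import Pool.Agent.U72.TD.Base
import Pool.Agent.U72.TD.Sym

set_option autoImplicit false

/-! # Choice for pairs of cosets in products of groups with bi-invariant lengths -/

namespace Pool.Agent.U72.TD

open Filter Topology
open Pool.Agent.H685R3 Pool.Agent.Helper227

universe u

variable {G : ℕ → Type u} [∀ n, Group (G n)]

/-- `R` chooses one element from every pair of different left cosets of `K` in `B`: it depends only
on the cosets, and for elements of different cosets exactly one of `R a b` and `R b a` holds. -/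
structure ChoosesFromPairs {P : Type u} [Group P] (B K : Subgroup P) (R : P → P → Prop) :
    Prop where
  congr : ∀ a ∈ B, ∀ a' ∈ B, ∀ b ∈ B, ∀ b' ∈ B, a⁻¹ * a' ∈ K → b⁻¹ * b' ∈ K → R a b → R a' b'
  choice : ∀ a ∈ B, ∀ b ∈ B, a⁻¹ * b ∉ K → (R a b ↔ ¬ R b a)

theorem pair_invariant {ℓ : ∀ n, G n → ℝ} (hl : ∀ n, IsLength (ℓ n)) {p : ∀ n, ℝ → G n}
    (hp : IsPath ℓ p) {B K : Subgroup (∀ n, G n)}
    (hB : ∀ t : ℕ → ℝ, (∀ n, t n ∈ Set.Icc (0 : ℝ) 1) → (fun n => p n (t n)) ∈ B)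
    (hK : ∀ a ∈ B, Null ℓ a → a ∈ K) {R : (∀ n, G n) → (∀ n, G n) → Prop}
    (hR : ChoosesFromPairs B K R) {s t : ℕ → ℝ} (h : Tendsto (fun n => s n - t n) atTop (𝓝 0))
    (h1 : R (fun n => loop₂ p n (s n)) (fun n => loop₂ p n (s n - 1 / 2))) :
    R (fun n => loop₂ p n (t n)) (fun n => loop₂ p n (t n - 1 / 2)) := by
  have b2 := loop₂_mem hB
  have l2 := isLoop_loop₂ hl hp
  refine hR.congr _ (b2 _) _ (b2 _) _ (b2 fun n => s n - 1 / 2) _ (b2 fun n => t n - 1 / 2)
    ?_ ?_ h1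
  · exact hK _ (B.mul_mem (B.inv_mem (b2 _)) (b2 _)) (l2.close _ _ h)
  · exact hK _ (B.mul_mem (B.inv_mem (b2 _)) (b2 _)) (l2.close _ _ (h.congr fun n => by ring))

theorem loop_split {p : ∀ n, ℝ → G n} (h0 : ∀ n, p n 0 = 1) (n : ℕ) (s : ℝ) :
    loop₁ p n s * loop₂ p n s =
    (loop₁ p n ((s + TH774.TD.dl s) / 2) * loop₂ p n ((s + TH774.TD.dl s) / 2)) *
    (loop₁ p n ((s - TH774.TD.dl s) / 2) * loop₂ p n ((s - TH774.TD.dl s) / 2)) := by
  have e0 : ∀ k : ℤ, loop₁ p n k = 1 := fun k => by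
    rw [loop₁, up_int, lo_int, mul_inv_cancel]
  have e1 : ∀ k : ℤ, loop₂ p n k = 1 := fun k => by
    rw [loop₂, up_int, lo_int, inv_mul_cancel]
  have e2 : ∀ (r : ℝ) (k : ℤ), loop₁ p n (r + k) = loop₁ p n r := fun r k => by
    rw [loop₁, loop₁, up_add_int, lo_add_int]
  have e3 : ∀ (r : ℝ) (k : ℤ), loop₂ p n (r + k) = loop₂ p n r := fun r k => by
    rw [loop₂, loop₂, up_add_int, lo_add_int]
  obtain ⟨i, j, ⟨h1, h2⟩ | ⟨h1, h2⟩⟩ := dl_split s
  · rw [h1, h2, e0, e1, e2, e3, one_mul, one_mul]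
  · rw [h1, h2, e0, e1, e2, e3, one_mul, mul_one]

/-- The theorem on choice for pairs of cosets. -/
theorem pair_mem {ℓ : ∀ n, G n → ℝ} (hl : ∀ n, IsLength (ℓ n)) {p : ∀ n, ℝ → G n}
    (hp : IsPath ℓ p) {B K : Subgroup (∀ n, G n)}
    (hB : ∀ t : ℕ → ℝ, (∀ n, t n ∈ Set.Icc (0 : ℝ) 1) → (fun n => p n (t n)) ∈ B)
    (hK : ∀ a ∈ B, Null ℓ a → a ∈ K) {R : (∀ n, G n) → (∀ n, G n) → Prop}
    (hR : ChoosesFromPairs B K R)
    (hD : Determined {x | R (fun n => loop₂ p n (TH774.TD.sq x n))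
      (fun n => loop₂ p n (TH774.TD.sq x n - 1 / 2))}) :
    (fun n => p n 1) ∈ K := by
  have b1 := loop₁_mem hB
  have b2 := loop₂_mem hB
  have l2 := isLoop_loop₂ hl hp
  obtain ⟨s, hs, hbase⟩ := exists_base
    (fun _ t => R (fun n => loop₂ p n (t n)) (fun n => loop₂ p n (t n - 1 / 2)))
    (fun _ s t h h1 => pair_invariant hl hp hB hK hR h h1) (fun _ => hD)
  have hb := hbase 0
  have hper : ∀ (n : ℕ) (r : ℝ), loop₂ p n (r - 1 / 2 - 1 / 2) = loop₂ p n r := by
    intro n r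
    have h1 := l2.per n r (-1)
    rw [← h1]
    congr 1
    push_cast
    ring
  -- half a period does not change the coset
  have hhalf : ∀ θ, TH774.TD.Nice θ →
      (fun n => loop₂ p n (θ (s n)))⁻¹ * (fun n => loop₂ p n (θ (s n) - 1 / 2)) ∈ K := by
    intro θ hθ
    by_contra hcon
    have h1 := hR.choice _ (b2 _) _ (b2 fun n => θ (s n) - 1 / 2) hcon
    have hθ' := nice_comp hθ (TH774.TD.nice_shift (c := 1 / 2) (by norm_num))
    have hcl : Tendsto (fun n => max (θ (s n) - 1 / 2) 0 - (θ (s n) - 1 / 2)) atTop (𝓝 0) := by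
      refine (tendsto_const_nhds (x := (0 : ℝ))).congr' ?_
      filter_upwards [(hθ.top.comp hs).eventually_ge_atTop (1 / 2)] with n hn
      have hn' : 1 / 2 ≤ θ (s n) := hn
      rw [max_eq_left (by linarith), sub_self]
    have h2 : R (fun n => loop₂ p n (max (θ (s n) - 1 / 2) 0))
        (fun n => loop₂ p n (max (θ (s n) - 1 / 2) 0 - 1 / 2)) ↔
        R (fun n => loop₂ p n (θ (s n) - 1 / 2)) (fun n => loop₂ p n (θ (s n))) := by
      have h3 : (fun n => loop₂ p n (θ (s n))) =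
          fun n => loop₂ p n (θ (s n) - 1 / 2 - 1 / 2) := by
        funext n
        rw [hper]
      rw [h3]
      constructor
      · exact fun h => pair_invariant hl hp hB hK hR hcl h
      · refine fun h => pair_invariant hl hp hB hK hR (s := fun n => θ (s n) - 1 / 2) ?_ h
        have := hcl.neg
        rw [neg_zero] at this
        exact this.congr fun n => by ring
    rcases hb with h | h
    · exact (h1.1 (h _ hθ)) (h2.1 (h _ hθ'))
    · have h3 := h _ hθ
      rw [h1, not_not] at h3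
      exact (h _ hθ') (h2.2 h3)
  -- the product of the two loops is in the coset of `g`
  have hg : ∀ θ, TH774.TD.Nice θ → (fun n => p n 1)⁻¹ *
      ((fun n => loop₁ p n (θ (s n))) * (fun n => loop₂ p n (θ (s n)))) ∈ K := by
    intro θ hθ
    have e : (fun n => p n 1)⁻¹ *
        ((fun n => loop₁ p n (θ (s n))) * (fun n => loop₂ p n (θ (s n)))) =
        ((fun n => loop₂ p n (θ (s n)))⁻¹ * (fun n => loop₂ p n (θ (s n) - 1 / 2)))⁻¹ := by
      funext n
      simp only [Pi.mul_apply, Pi.inv_apply]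
      rw [← loop_mul hp.zero n (θ (s n))]
      group
    rw [e]
    exact K.inv_mem (hhalf θ hθ)
  have h1 := hg _ TH774.TD.nice_id
  have h2 := hg _ TH774.TD.nice_two
  have h3 := hg _ TH774.TD.nice_three
  have e : (fun n => p n 1) =
      ((fun n => p n 1)⁻¹ * ((fun n => loop₁ p n ((s n + TH774.TD.dl (s n)) / 2)) *
        (fun n => loop₂ p n ((s n + TH774.TD.dl (s n)) / 2))))⁻¹ *
      ((fun n => p n 1)⁻¹ * ((fun n => loop₁ p n (s n)) * (fun n => loop₂ p n (s n)))) *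
      ((fun n => p n 1)⁻¹ * ((fun n => loop₁ p n ((s n - TH774.TD.dl (s n)) / 2)) *
        (fun n => loop₂ p n ((s n - TH774.TD.dl (s n)) / 2))))⁻¹ := by
    funext n
    simp only [Pi.mul_apply, Pi.inv_apply]
    rw [loop_split hp.zero n (s n)]
    group
  rw [e]
  exact K.mul_mem (K.mul_mem (K.inv_mem h2) h1) (K.inv_mem h3)

end Pool.Agent.U72.TD
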