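import Pool.Agent.U72.TD.Base

set_option autoImplicit false

/-! # Selectors and finitely additive maps -/

namespace Pool.Agent.U72.TD

open Filter Topology
open Pool.Agent.H685R3 Pool.Agent.Helper227

universe u v

/-- `sel` is a function which selects a nonempty proper subset of every set of exactly `q` elements
of `Y` (the set is given by an injective listing, the subset by the set of its indices). -/
structure IsSelector {Y : Type u} (q : ℕ) (sel : (Fin q → Y) → Set (Fin q)) : Prop where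
  nonempty : ∀ a, Function.Injective a → (sel a).Nonempty
  ne_univ : ∀ a, Function.Injective a → sel a ≠ Set.univ
  perm : ∀ a, Function.Injective a → ∀ π : Equiv.Perm (Fin q), sel (a ∘ π) = π ⁻¹' sel a

/-- invariance under the successor map -/
theorem eq_univ_of_succ {q : ℕ} [NeZero q] {J : Set (Fin q)} (hJ : J.Nonempty)
    (h : ∀ i, i ∈ J → i + 1 ∈ J) : J = Set.univ := by
  obtain ⟨i, hi⟩ := hJ
  have hq : 0 < q := NeZero.pos q
  have h1 : ∀ n : ℕ, ∀ j : Fin q, (j : ℕ) = ((i : ℕ) + n) % q → j ∈ J := by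
    intro n
    induction n with
    | zero =>
      intro j hj
      rw [add_zero, Nat.mod_eq_of_lt i.2] at hj
      rw [Fin.ext hj]
      exact hi
    | succ n ih =>
      intro j hj
      have h2 := h _ (ih ⟨((i : ℕ) + n) % q, Nat.mod_lt _ hq⟩ rfl)
      convert h2 using 1
      refine Fin.ext ?_
      rw [hj, Fin.val_add, Fin.val_one', Nat.add_mod_mod, Nat.mod_add_mod, add_assoc]
  ext j
  refine ⟨fun _ => trivial, fun _ => h1 ((j : ℕ) + (q - i)) j ?_⟩
  have h3 := i.2
  rw [show (i : ℕ) + ((j : ℕ) + (q - i)) = j + q by omega, Nat.add_mod_right,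
    Nat.mod_eq_of_lt j.2]

section core

variable {Q : Type u} [AddCommGroup Q]

theorem symm_of_additive {ν : Set ℕ → Q} (hadd : ∀ S T, Disjoint S T → ν (S ∪ T) = ν S + ν T)
    (hnull : ∀ S, DensityZero S → ν S = 0) {P R : Set ℕ} (h : DensityZero (symmDiff P R)) :
    ν P = ν R := by
  have e1 : ∀ P R : Set ℕ, DensityZero (symmDiff P R) → ν P = ν (P ∩ R) := by
    intro P R h
    have e2 : P = P ∩ R ∪ P \ R := (Set.inter_union_sdiff P R).symm
    have e3 : ν (P \ R) = 0 := hnull _ (h.mono fun m hm => Or.inl hm)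
    have e4 : ν P = ν (P ∩ R ∪ P \ R) := congrArg ν e2
    rw [e4, hadd _ _ (Set.disjoint_left.2 fun m hm hm' => hm'.2 hm.2), e3, add_zero]
  rw [e1 P R h, e1 R P (by rwa [symmDiff_comm]), Set.inter_comm]

/-- sums of consecutive arcs -/
theorem sum_arcs {ν : Set ℕ → Q} (hadd : ∀ S T, Disjoint S T → ν (S ∪ T) = ν S + ν T)
    (h0 : ν ∅ = 0) {q : ℕ} (hq : 0 < q) (s : ℕ → ℝ) (d : ℕ) (hd : d ≤ q) :
    ν (arcw ((d : ℝ) / q) s) =
      ∑ i ∈ Finset.range d, ν (arcw (1 / q) fun n => s n - (i : ℝ) / q) := by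
  have hq' : (0 : ℝ) < q := by exact_mod_cast hq
  induction d with
  | zero => simp [arcw_zero, h0]
  | succ d ih =>
    rw [Finset.sum_range_succ, ← ih (by omega)]
    have h1 : ((d + 1 : ℕ) : ℝ) ≤ q := by exact_mod_cast hd
    have h2 := arcw_add (v := (d : ℝ) / q) (w := 1 / q) (by positivity) (by positivity) (by
      rw [← add_div, div_le_one hq']
      exact_mod_cast hd) s
    rw [← hadd _ _ h2.2, ← h2.1]
    congr 2
    push_cast
    ring

variable (q : ℕ) (sel : (Fin q → Q) → Set (Fin q)) (ν : Set ℕ → Q)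

/-- The family of the `q` arcs of width `1 / q`. -/
noncomputable def fam (t : ℕ → ℝ) (i : Fin q) : Q :=
  ν (arcw (1 / q) fun n => t n - (i : ℝ) / q)

omit [AddCommGroup Q] in
theorem fam_succ [NeZero q] (t : ℕ → ℝ) :
    fam q ν (fun n => t n - 1 / q) = fam q ν t ∘ Equiv.addRight (1 : Fin q) := by
  funext i
  have hq' : (0 : ℝ) < q := by
    have := NeZero.pos q
    exact_mod_cast this
  change ν (arcw (1 / q) fun n => t n - 1 / q - (i : ℝ) / q) =
    ν (arcw (1 / q) fun n => t n - ((i + 1 : Fin q) : ℝ) / q)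
  obtain ⟨N, hN⟩ : ∃ N : ℤ, ((i : ℕ) : ℤ) + 1 = (((i + 1 : Fin q) : ℕ) : ℤ) + N * q := by
    refine ⟨(((i : ℕ) + 1) / q : ℕ), ?_⟩
    have h1 : ((i + 1 : Fin q) : ℕ) = ((i : ℕ) + 1) % q := by
      rw [Fin.val_add, Fin.val_one', Nat.add_mod_mod]
    rw [h1]
    have h2 := Nat.mod_add_div ((i : ℕ) + 1) q
    have h3 : (((i : ℕ) + 1 : ℕ) : ℤ) =
        ((((i : ℕ) + 1) % q : ℕ) : ℤ) + ((((i : ℕ) + 1) / q : ℕ) : ℤ) * q := by
      rw [mul_comm]
      exact_mod_cast h2.symm
    exact_mod_cast h3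
  have hN' : ((i : ℕ) : ℝ) + 1 = (((i + 1 : Fin q) : ℕ) : ℝ) + N * q := by exact_mod_cast hN
  rw [← arcw_add_int _ (fun n => t n - 1 / q - (i : ℝ) / q) N]
  congr 2
  funext n
  have h5 : ((i : ℕ) : ℝ) = (((i + 1 : Fin q) : ℕ) : ℝ) + N * q - 1 := by linarith
  rw [h5]
  field_simp
  ring

theorem fam_null {ν : Set ℕ → Q} (hadd : ∀ S T, Disjoint S T → ν (S ∪ T) = ν S + ν T)
    (hnull : ∀ S, DensityZero S → ν S = 0) {s t : ℕ → ℝ}
    (h : Tendsto (fun n => s n - t n) atTop (𝓝 0)) : fam q ν s = fam q ν t := by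
  funext i
  exact symm_of_additive hadd hnull (arcw_close (h.congr fun n => by ring))

/-- The core of the theorem on selectors. -/
theorem selector_core (hq : 2 ≤ q) (hsel : IsSelector q sel)
    (hadd : ∀ S T, Disjoint S T → ν (S ∪ T) = ν S + ν T)
    (hnull : ∀ S, DensityZero S → ν S = 0)
    (hS : ∀ j : Fin q, Determined {x | j ∈ sel (fam q ν (TH774.TD.sq x))})
    (hR : ∀ j : Fin q, Determined {x | ν (arcw (1 / q) (TH774.TD.sq x)) =
      ν (arcw (1 / q) fun n => TH774.TD.sq x n - (j : ℝ) / q)}) : ν Set.univ = 0 := by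
  have hq0 : 0 < q := by omega
  have : NeZero q := ⟨by omega⟩
  have hq' : (0 : ℝ) < q := by exact_mod_cast hq0
  have h0 : ν ∅ = 0 := by
    have := hadd ∅ ∅ (Set.disjoint_empty _)
    rw [Set.union_empty] at this
    exact left_eq_add.1 this
  -- the family of properties
  set ix : ℕ → Fin q := fun n => ⟨n % q, Nat.mod_lt _ hq0⟩ with hix
  set Φ : ℕ → (ℕ → ℝ) → Prop := fun n t =>
    if n % 2 = 0 then ix (n / 2) ∈ sel (fam q ν t) else
      ν (arcw (1 / q) t) = ν (arcw (1 / q) fun m => t m - ((ix (n / 2) : ℕ) : ℝ) / q) with hΦ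
  have hΦn : ∀ i s t, Tendsto (fun n => s n - t n) atTop (𝓝 0) → Φ i s → Φ i t := by
    intro i s t h h1
    simp only [hΦ] at h1 ⊢
    split_ifs at h1 ⊢ with h2
    · rw [← fam_null q hadd hnull h]
      exact h1
    · rw [← symm_of_additive hadd hnull (arcw_close h), h1]
      exact symm_of_additive hadd hnull (arcw_close (h.congr fun n => by ring))
  have hΦD : ∀ i, Determined {x | Φ i (TH774.TD.sq x)} := by
    intro i
    simp only [hΦ]
    split_ifs with h2
    · exact hS _
    · exact hR _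
  obtain ⟨s, hs, hbase⟩ := exists_base Φ hΦn hΦD
  have ixv : ∀ j : Fin q, ix (j : ℕ) = j := fun j => Fin.ext (Nat.mod_eq_of_lt j.2)
  have baseS : ∀ j : Fin q, (∀ θ, TH774.TD.Nice θ → j ∈ sel (fam q ν fun n => θ (s n))) ∨
      (∀ θ, TH774.TD.Nice θ → j ∉ sel (fam q ν fun n => θ (s n))) := by
    intro j
    have h1 := hbase (2 * (j : ℕ))
    have h2 : 2 * (j : ℕ) % 2 = 0 := by omega
    have h3 : 2 * (j : ℕ) / 2 = j := by omega
    simp only [hΦ, h2, if_true, h3, ixv] at h1
    exact h1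
  have baseR : ∀ k : ℕ, k < q → (∀ θ, TH774.TD.Nice θ → ν (arcw (1 / q) fun n => θ (s n)) =
      ν (arcw (1 / q) fun n => θ (s n) - (k : ℝ) / q)) ∨
      (∀ θ, TH774.TD.Nice θ → ν (arcw (1 / q) fun n => θ (s n)) ≠
      ν (arcw (1 / q) fun n => θ (s n) - (k : ℝ) / q)) := by
    intro k hk
    have h1 := hbase (2 * k + 1)
    have h2 : ¬ (2 * k + 1) % 2 = 0 := by omega
    have h3 : (2 * k + 1) / 2 = k := by omega
    simp only [hΦ, h2, if_false, h3, ixv ⟨k, hk⟩] at h1
    exact h1
  -- shifts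
  have hshift : ∀ (θ : ℝ → ℝ), TH774.TD.Nice θ → ∀ c : ℝ,
      Tendsto (fun n => max (θ (s n) - c) 0 - (θ (s n) - c)) atTop (𝓝 0) := by
    intro θ hθ c
    refine (tendsto_const_nhds (x := (0 : ℝ))).congr' ?_
    filter_upwards [(hθ.top.comp hs).eventually_ge_atTop c] with n hn
    have hn' : c ≤ θ (s n) := hn
    rw [max_eq_left (by linarith), sub_self]
  -- the family along `s` is not injective
  have hninj : ¬ Function.Injective (fam q ν s) := by
    intro hinj
    have e1 : fam q ν (fun n => max (s n - 1 / q) 0) = fam q ν s ∘ Equiv.addRight (1 : Fin q) := by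
      rw [← fam_succ]
      exact fam_null q hadd hnull (hshift _ TH774.TD.nice_id _)
    have e2 : ∀ j : Fin q, j ∈ sel (fam q ν s) → j + 1 ∈ sel (fam q ν s) := by
      intro j hj
      have h1 : j ∈ sel (fam q ν fun n => max (s n - 1 / q) 0) := by
        rcases baseS j with h | h
        · exact h _ (TH774.TD.nice_shift (by positivity))
        · exact absurd hj (h _ TH774.TD.nice_id)
      rw [e1, hsel.perm _ hinj] at h1
      exact h1
    exact hsel.ne_univ _ hinj (eq_univ_of_succ (hsel.nonempty _ hinj) e2)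
  -- a period
  obtain ⟨k, hk0, hkq, hk⟩ : ∃ k : ℕ, 0 < k ∧ k < q ∧ ∀ θ, TH774.TD.Nice θ →
      ν (arcw (1 / q) fun n => θ (s n)) = ν (arcw (1 / q) fun n => θ (s n) - (k : ℝ) / q) := by
    have h1 : ∃ i j : Fin q, i < j ∧ fam q ν s i = fam q ν s j := by
      unfold Function.Injective at hninj
      push Not at hninj
      obtain ⟨i, j, h2, h3⟩ := hninj
      rcases lt_or_gt_of_ne h3 with h4 | h4
      · exact ⟨i, j, h4, h2⟩
      · exact ⟨j, i, h4, h2.symm⟩
    obtain ⟨i, j, hij, he⟩ := h1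
    have hij' : (i : ℕ) < j := hij
    refine ⟨j - i, by omega, by have := j.2; omega, ?_⟩
    rcases baseR (j - i) (by have := j.2; omega) with h | h
    · exact h
    · exfalso
      refine h _ (TH774.TD.nice_shift (c := (i : ℝ) / q) (by positivity)) ?_
      have h5 := hshift _ TH774.TD.nice_id ((i : ℝ) / q)
      rw [symm_of_additive hadd hnull (arcw_close h5)]
      rw [symm_of_additive hadd hnull (arcw_close
        (s := fun n => max (s n - (i : ℝ) / q) 0 - ((j - i : ℕ) : ℝ) / q)
        (t := fun n => s n - (i : ℝ) / q - ((j - i : ℕ) : ℝ) / q) (h5.congr fun n => by ring))]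
      have h6 : (fun n => s n - (i : ℝ) / q - ((j - i : ℕ) : ℝ) / q) =
          fun n => s n - (j : ℝ) / q := by
        funext n
        rw [Nat.cast_sub hij'.le]
        ring
      rw [h6]
      exact he
  -- the class of sequences
  set T : Set (ℕ → ℝ) := {t | ∃ θ, TH774.TD.Nice θ ∧ ∃ N : ℤ,
    Tendsto (fun n => t n - (θ (s n) + N)) atTop (𝓝 0)} with hT
  have hTs : ∀ θ, TH774.TD.Nice θ → (fun n => θ (s n)) ∈ T := by
    intro θ hθ
    refine ⟨θ, hθ, 0, ?_⟩
    simp
  have hTshift : ∀ t ∈ T, ∀ c : ℝ, (fun n => t n - c) ∈ T := by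
    rintro t ⟨θ, hθ, N, h⟩ c
    refine ⟨_, nice_comp hθ (TH774.TD.nice_shift (c := Int.fract c) (Int.fract_nonneg c)),
      N - ⌊c⌋, ?_⟩
    have h1 := h.sub (hshift θ hθ (Int.fract c))
    rw [sub_zero] at h1
    refine h1.congr fun n => ?_
    have h2 := Int.floor_add_fract c
    push_cast
    linarith
  have hperiod : ∀ t ∈ T, ν (arcw (1 / q) t) = ν (arcw (1 / q) fun n => t n - (k : ℝ) / q) := by
    rintro t ⟨θ, hθ, N, h⟩
    have h1 := hk θ hθ
    rw [symm_of_additive hadd hnull (arcw_close h), arcw_add_int, h1,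
      symm_of_additive hadd hnull (arcw_close (s := fun n => t n - (k : ℝ) / q)
        (t := fun n => θ (s n) - (k : ℝ) / q + N) (h.congr fun n => by ring)), arcw_add_int]
  -- the group of periods
  let Hp : AddSubgroup ℤ :=
    { carrier := {l | ∀ t ∈ T, ν (arcw (1 / q) t) = ν (arcw (1 / q) fun n => t n - (l : ℝ) / q)}
      zero_mem' := fun t _ => by simp
      add_mem' := by
        intro a b ha hb t ht
        have h1 := ha t ht
        have h2 := hb _ (hTshift t ht ((a : ℝ) / q))
        rw [h1, h2]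
        congr 2
        funext n
        push_cast
        ring
      neg_mem' := by
        intro a ha t ht
        have h1 := ha _ (hTshift t ht (-((a : ℝ) / q)))
        have h2 : (fun n => t n - -((a : ℝ) / q) - (a : ℝ) / q) = t := by
          funext n
          ring
        rw [h2] at h1
        rw [← h1]
        congr 2
        funext n
        push_cast
        ring }
  have hkH : (k : ℤ) ∈ Hp := fun t ht => hperiod t ht
  have hqH : (q : ℤ) ∈ Hp := by
    intro t _
    have h1 : (fun n => t n - ((q : ℤ) : ℝ) / q) = fun n => t n + ((-1 : ℤ) : ℝ) := by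
      funext n
      push_cast
      rw [div_self hq'.ne']
      ring
    rw [h1, arcw_add_int]
  set d := Nat.gcd k q with hd
  have hdH : (d : ℤ) ∈ Hp := by
    have h1 := Nat.gcd_eq_gcd_ab k q
    rw [hd, h1]
    refine Hp.add_mem ?_ ?_
    · have h2 := Hp.zsmul_mem hkH (k.gcdA q)
      rwa [smul_eq_mul, mul_comm] at h2
    · have h2 := Hp.zsmul_mem hqH (k.gcdB q)
      rwa [smul_eq_mul, mul_comm] at h2
  have hd0 : 0 < d := Nat.gcd_pos_of_pos_left _ hk0
  obtain ⟨e, he⟩ : d ∣ q := Nat.gcd_dvd_right k q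
  have hdk : d ≤ k := Nat.gcd_le_left _ hk0
  have he2 : 2 ≤ e := by
    by_contra h1
    have h2 : e ≤ 1 := by omega
    have h3 : d * e ≤ d * 1 := Nat.mul_le_mul_left d h2
    omega
  have hdq : (d : ℝ) / q ≤ 1 / 2 := by
    rw [div_le_div_iff₀ hq' (by norm_num)]
    have h1 : d * 2 ≤ 1 * q := by
      rw [he]
      have := Nat.mul_le_mul_left d he2
      omega
    exact_mod_cast h1
  -- the total mass
  have htotal : ∀ t ∈ T, ν Set.univ = e • ν (arcw ((d : ℝ) / q) t) := by
    intro t ht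
    have h1 := sum_arcs hadd h0 hq0 t q le_rfl
    rw [div_self hq'.ne', arcw_one] at h1
    rw [h1, sum_arcs hadd h0 hq0 t d (by
      rw [he]
      exact Nat.le_mul_of_pos_right d (by omega))]
    set f : ℕ → Q := fun i => ν (arcw (1 / q) fun n => t n - (i : ℝ) / q) with hf
    have hfd : ∀ i l : ℕ, f (d * l + i) = f i := by
      intro i l
      induction l with
      | zero => simp
      | succ l ih =>
        rw [← ih]
        have h2 := hdH _ (hTshift t ht (((d * l + i : ℕ) : ℝ) / q))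
        simp only [hf]
        rw [h2]
        congr 2
        funext n
        push_cast
        ring
    have h3 : ∀ l : ℕ, ∑ i ∈ Finset.range (d * l), f i = l • ∑ i ∈ Finset.range d, f i := by
      intro l
      induction l with
      | zero => simp
      | succ l ih =>
        rw [Nat.mul_succ, Finset.sum_range_add, ih, succ_nsmul]
        congr 1
        exact Finset.sum_congr rfl fun i _ => hfd i l
    have h4 := h3 e
    rw [← he] at h4
    exact h4
  -- the split
  have h1 := htotal _ (hTs _ TH774.TD.nice_id)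
  have h2 := htotal _ (hTs _ TH774.TD.nice_two)
  have h3 := htotal _ (hTs _ TH774.TD.nice_three)
  obtain ⟨h4, h5⟩ := arcw_split hdq s
  have h6 : ν (arcw ((d : ℝ) / q) s) =
      ν (arcw ((d : ℝ) / q) fun n => (s n + TH774.TD.dl (s n)) / 2) +
      ν (arcw ((d : ℝ) / q) fun n => (s n - TH774.TD.dl (s n)) / 2) := by
    rw [← hadd _ _ h5, ← h4]
  have h7 : ν Set.univ = ν Set.univ + ν Set.univ := by
    conv_lhs => rw [h1, h6, nsmul_add, ← h2, ← h3]
  exact left_eq_add.1 h7

end core

end Pool.Agent.U72.TD
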