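import Pool.Agent.U72.TD.Base

set_option autoImplicit false

/-! # Iterated cone limits -/

namespace Pool.Agent.U72.TD

open Filter Topology
open Pool.Agent.H685R3 Pool.Agent.Helper227

universe u

variable {d : ℕ}

/-- Replace the `i`-th coordinates of a sequence of vectors. -/
def upd (t : ℕ → Fin d → ℝ) (i : Fin d) (u : ℕ → ℝ) : ℕ → Fin d → ℝ :=
  fun n => Function.update (t n) i (u n)

/-- The value of `f` on a cone of Turing degrees: the `j`-th bit is true if the `j`-th bit of `f y`
is true for all `y` above some `z`. -/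
noncomputable def coneLim (f : (ℕ → Bool) → ℕ → Bool) : ℕ → Bool := by
  classical
  exact fun j => decide (∃ z : ℕ → Bool, ∀ y : ℕ → Bool,
    TuringReducible (charFn z) (charFn y) → f y j = true)

theorem coneLim_iff (f : (ℕ → Bool) → ℕ → Bool) (j : ℕ) : coneLim f j = true ↔
    ∃ z : ℕ → Bool, ∀ y : ℕ → Bool, TuringReducible (charFn z) (charFn y) → f y j = true := by
  classical
  unfold coneLim
  simp only [decide_eq_true_iff]

/-- The first `k` coordinates are replaced by iterated cone limits along `ρ`. -/
noncomputable def iter (ρ : (ℕ → Bool) → ℕ → ℝ) (Ψ : (ℕ → Fin d → ℝ) → ℕ → Bool) :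
    ℕ → (ℕ → Fin d → ℝ) → ℕ → Bool
  | 0 => Ψ
  | k + 1 => fun t => if h : k < d then coneLim fun y => iter ρ Ψ k (upd t ⟨k, h⟩ (ρ y))
      else iter ρ Ψ k t

/-- The values do not change under null perturbations. -/
def NullInv (Ψ : (ℕ → Fin d → ℝ) → ℕ → Bool) : Prop :=
  ∀ s t : ℕ → Fin d → ℝ, (∀ i, Tendsto (fun n => s n i - t n i) atTop (𝓝 0)) → Ψ s = Ψ t

theorem iter_succ (ρ : (ℕ → Bool) → ℕ → ℝ) (Ψ : (ℕ → Fin d → ℝ) → ℕ → Bool) {k : ℕ} (h : k < d)
    (t : ℕ → Fin d → ℝ) :
    iter ρ Ψ (k + 1) t = coneLim fun y => iter ρ Ψ k (upd t ⟨k, h⟩ (ρ y)) := by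
  have h1 : iter ρ Ψ (k + 1) t = if h : k < d then
      coneLim fun y => iter ρ Ψ k (upd t ⟨k, h⟩ (ρ y)) else iter ρ Ψ k t := rfl
  rw [h1, dif_pos h]

theorem iter_null (ρ : (ℕ → Bool) → ℕ → ℝ) {Ψ : (ℕ → Fin d → ℝ) → ℕ → Bool} (hΨ : NullInv Ψ)
    (k : ℕ) : NullInv (iter ρ Ψ k) := by
  induction k with
  | zero => exact hΨ
  | succ k ih =>
    intro s t h
    unfold iter
    split_ifs with hk
    · congr 1
      funext y
      refine ih _ _ fun i => ?_
      by_cases hi : i = ⟨k, hk⟩
      · subst hi
        simp [upd]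
      · simp only [upd, Function.update_of_ne hi]
        exact h i
    · exact ih s t h

theorem iter_congr (ρ : (ℕ → Bool) → ℕ → ℝ) (Ψ : (ℕ → Fin d → ℝ) → ℕ → Bool) (k : ℕ) :
    ∀ s t : ℕ → Fin d → ℝ, (∀ i : Fin d, k ≤ i → ∀ n, s n i = t n i) →
      iter ρ Ψ k s = iter ρ Ψ k t := by
  induction k with
  | zero =>
    intro s t h
    have : s = t := by
      funext n i
      exact h i (Nat.zero_le _) n
    rw [this]
  | succ k ih =>
    intro s t h
    unfold iter
    split_ifs with hk
    · congr 1
      funext y
      refine ih _ _ fun i hi n => ?_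
      by_cases hi' : i = ⟨k, hk⟩
      · subst hi'
        simp [upd]
      · simp only [upd, Function.update_of_ne hi']
        refine h i ?_ n
        have h1 : (i : ℕ) ≠ k := fun h2 => hi' (Fin.ext h2)
        omega
    · refine ih s t fun i hi n => ?_
      have := i.2
      omega

theorem nice_half (r : ℝ) : TH774.TD.Nice fun x => min x (max (x / 2 + r) 0) where
  nonneg := fun x hx => le_min hx (le_max_right _ _)
  le := fun x _ => min_le_left _ _
  mono := fun x y _ h => min_le_min h (max_le_max (by linarith) le_rfl)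
  lip := by
    intro x y _ h
    have h1 : max (y / 2 + r) 0 ≤ max (x / 2 + r) 0 + (y - x) :=
      max_le (by have := le_max_left (x / 2 + r) 0; linarith)
        (by have := le_max_right (x / 2 + r) 0; linarith)
    have h2 : min y (max (y / 2 + r) 0) ≤ min x (max (x / 2 + r) 0) + (y - x) := by
      rw [← min_add_add_right]
      exact min_le_min (by linarith) h1
    linarith
  top := by
    refine tendsto_atTop.2 fun b => ?_
    filter_upwards [eventually_ge_atTop b, eventually_ge_atTop (2 * (b - r))] with x h1 h2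
    exact le_min h1 (le_trans (by linarith) (le_max_left _ _))

theorem iter_invariant {Ψ : (ℕ → Fin d → ℝ) → ℕ → Bool} (hΨ : NullInv Ψ) (i : Fin d)
    (t : ℕ → Fin d → ℝ) (j : ℕ) :
    TuringInvariant {x | iter TH774.TD.sq Ψ i (upd t i (TH774.TD.sq x)) j = true} := by
  intro x y h1 h2 hx
  change iter TH774.TD.sq Ψ i (upd t i (TH774.TD.sq x)) j = true at hx
  change iter TH774.TD.sq Ψ i (upd t i (TH774.TD.sq y)) j = true
  have e : iter TH774.TD.sq Ψ i (upd t i (TH774.TD.sq x)) =
      iter TH774.TD.sq Ψ i (upd t i (TH774.TD.sq y)) := by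
    refine iter_null _ hΨ _ _ _ fun l => ?_
    by_cases hl : l = i
    · subst hl
      simp only [upd, Function.update_self]
      exact TH774.TD.sq_close h1 h2
    · simp [upd, Function.update_of_ne hl]
  rw [← e]
  exact hx

/-- The theorem on iterated limits. -/
theorem torus {Ψ : (ℕ → Fin d → ℝ) → ℕ → Bool} (hΨ : NullInv Ψ)
    (hD : ∀ (i : Fin d) (t : ℕ → Fin d → ℝ) (j : ℕ),
      Determined {x | iter TH774.TD.sq Ψ i (upd t i (TH774.TD.sq x)) j = true}) :
    ∃ c : ℕ → Bool, ∀ r : ℕ → Fin d → ℝ, ∃ s : ℕ → Fin d → ℝ,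
      (∀ i, Tendsto (fun n => s n i) atTop atTop) ∧ ∀ l, Ψ (fun n => s n + r l) = c := by
  refine ⟨iter TH774.TD.sq Ψ d 0, fun r => ?_⟩
  set c := iter TH774.TD.sq Ψ d 0 with hc
  have main : ∀ m ≤ d, ∃ s : ℕ → Fin d → ℝ, (∀ i, Tendsto (fun n => s n i) atTop atTop) ∧
      ∀ l, iter TH774.TD.sq Ψ (d - m) (fun n => s n + r l) = c := by
    intro m
    induction m with
    | zero =>
      intro _
      refine ⟨fun n _ => n, fun i => tendsto_natCast_atTop_atTop, fun l => ?_⟩
      rw [hc]
      refine iter_congr _ _ _ _ _ fun i hi => ?_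
      have := i.2
      omega
    | succ m ih =>
      intro hm
      obtain ⟨s, hs, hsc⟩ := ih (by omega)
      set k := d - (m + 1) with hk
      have hk1 : d - m = k + 1 := by omega
      have hkd : k < d := by omega
      rw [hk1] at hsc
      set i : Fin d := ⟨k, hkd⟩ with hi
      have hsc' : ∀ l, (coneLim fun y => iter TH774.TD.sq Ψ k
          (upd (fun n => s n + r l) i (TH774.TD.sq y))) = c := by
        intro l
        have h1 := hsc l
        rw [iter_succ _ _ hkd] at h1
        exact h1
      obtain ⟨z, hz⟩ := TH774.TD.const_on_cone (S := fun a : ℕ =>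
        {x | iter TH774.TD.sq Ψ k (upd (fun n => s n + r a.unpair.1) i (TH774.TD.sq x))
          a.unpair.2 = true})
        (fun a => iter_invariant hΨ i _ _) (fun a => hD i _ _)
      have hval : ∀ l, ∀ y, TLe z y → iter TH774.TD.sq Ψ k
          (upd (fun n => s n + r l) i (TH774.TD.sq y)) = c := by
        intro l y hy
        funext j
        rw [← hsc' l]
        have h1 := hz (Nat.pair l j)
        simp only [Nat.unpair_pair] at h1
        rcases h1 with h1 | h1
        · have h2 : iter TH774.TD.sq Ψ k (upd (fun n => s n + r l) i (TH774.TD.sq y)) j = true :=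
            h1 y hy
          rw [h2]
          symm
          rw [coneLim_iff]
          exact ⟨z, fun y hy => h1 y hy⟩
        · have h2 : ¬ iter TH774.TD.sq Ψ k (upd (fun n => s n + r l) i (TH774.TD.sq y)) j =
              true := h1 y hy
          rw [Bool.not_eq_true] at h2
          rw [h2]
          symm
          rw [← Bool.not_eq_true, coneLim_iff]
          rintro ⟨z', hz'⟩
          obtain ⟨w, hw⟩ := Pool.Agent.W885.TD.join_cone fun n => if n = 0 then z else z'
          have e1 : TLe z w := by simpa using hw 0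
          have e2 : TLe z' w := by simpa using hw 1
          exact h1 w e1 (hz' w e2)
      obtain ⟨u, -, hu, hw⟩ := TH774.TD.walk_sq z
      refine ⟨upd s i fun n => u n / 2, fun i' => ?_, fun l => ?_⟩
      · by_cases h : i' = i
        · subst h
          simp only [upd, Function.update_self]
          exact hu.atTop_div_const (by norm_num)
        · simp only [upd, Function.update_of_ne h]
          exact hs i'
      · obtain ⟨y, hy, cy⟩ := hw _ (nice_half (r l i))
        rw [← hval l y hy]
        refine iter_null _ hΨ _ _ _ fun i' => ?_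
        by_cases h : i' = i
        · subst h
          simp only [upd, Pi.add_apply, Function.update_self]
          have h1 : Tendsto (fun n => min (u n) (max (u n / 2 + r l i) 0) -
              (u n / 2 + r l i)) atTop (𝓝 0) := by
            refine (tendsto_const_nhds (x := (0 : ℝ))).congr' ?_
            filter_upwards [hu.eventually_ge_atTop (2 * r l i),
              hu.eventually_ge_atTop (-(2 * r l i))] with n h2 h3
            rw [max_eq_left (by linarith), min_eq_right (by linarith), sub_self]
          have h2 := (cy.add h1).neg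
          rw [add_zero, neg_zero] at h2
          refine h2.congr fun n => ?_
          ring
        · simp [upd, Function.update_of_ne h]
  have h1 := main d le_rfl
  rw [Nat.sub_self] at h1
  exact h1

end Pool.Agent.U72.TD
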